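import Mathlib

/-!
# Specialisation of finitely generated subrings to positive characteristic
-/

set_option autoImplicit false
set_option linter.all false

noncomputable section

namespace Pool.Agent.CB27

lemma jacobson_int : IsJacobsonRing ℤ := by
  rw [isJacobsonRing_iff_prime_eq]
  intro P hP
  by_cases h0 : P = ⊥
  · subst h0
    rw [eq_bot_iff]
    intro x hx
    rw [Ideal.mem_jacobson_bot] at hx
    have h1 := hx x
    rw [Int.isUnit_iff] at h1
    rw [Ideal.mem_bot]
    rcases h1 with h1 | h1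
    · have : x * x = 0 := by linarith
      exact mul_self_eq_zero.1 this
    · nlinarith [mul_self_nonneg x]
  · have hmax : P.IsMaximal := IsPrime.to_maximal_ideal h0
    exact Ideal.jacobson_eq_self_of_isMaximal

/-- a field of finite type over `ℤ` has positive characteristic -/
lemma char_ne_zero_of_finiteType (k : Type*) [Field k] [Algebra ℤ k] [Algebra.FiniteType ℤ k] :
    ¬ CharZero k := by
  intro hk
  haveI := jacobson_int
  have hfin := finite_of_finite_type_of_isJacobsonRing ℤ k
  haveI : Algebra.IsIntegral ℤ k := @Algebra.IsIntegral.of_finite ℤ k _ _ _ hfin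
  have hinj : Function.Injective (algebraMap ℤ k) := by
    rw [show algebraMap ℤ k = Int.castRingHom k from RingHom.ext_int _ _]
    exact Int.cast_injective
  have h1 : IsField ℤ := isField_of_isIntegral_of_isField hinj (Field.toIsField k)
  obtain ⟨y, hy⟩ := h1.mul_inv_cancel (show (2 : ℤ) ≠ 0 by norm_num)
  omega

/-- **Specialisation.** A finite set `T` of elements of a field of characteristic zero generates a
ring which has a homomorphism to an algebraically closed field of some characteristic `p > C`. -/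
theorem exists_specialisation {K : Type} [Field K] [CharZero K] (T : Finset K) (C : ℕ) :
    ∃ (A : Subalgebra ℤ K) (p : ℕ) (κ : Type) (_ : Field κ) (_ : IsAlgClosed κ) (_ : CharP κ p)
      (h : A →+* κ), p.Prime ∧ C < p ∧ (∀ x ∈ T, x ∈ A) ∧
      ∀ x ∈ T, x ≠ 0 → ∀ hx : x ∈ A, h ⟨x, hx⟩ ≠ 0 := by
  classical
  let T' : Finset K := (T ∪ T.image fun x => x⁻¹) ∪ {((C.factorial : ℕ) : K)⁻¹}
  let A : Subalgebra ℤ K := Algebra.adjoin ℤ (T' : Set K)
  have hTA : ∀ x ∈ T', x ∈ A := fun x hx => Algebra.subset_adjoin (Finset.mem_coe.2 hx)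
  have hfg : Algebra.FiniteType ℤ A :=
    (Subalgebra.fg_iff_finiteType A).1 (Subalgebra.fg_adjoin_finset T')
  obtain ⟨𝔪, h𝔪⟩ := Ideal.exists_maximal A
  letI : Field (A ⧸ 𝔪) := Ideal.Quotient.field 𝔪
  haveI : Algebra.FiniteType ℤ (A ⧸ 𝔪) := by
    refine Algebra.FiniteType.of_surjective (Ideal.Quotient.mkₐ ℤ 𝔪) ?_
    exact Ideal.Quotient.mkₐ_surjective ℤ 𝔪
  have hk := char_ne_zero_of_finiteType (A ⧸ 𝔪)
  obtain ⟨p, hp⟩ := CharP.exists (A ⧸ 𝔪)
  have hp0 : p ≠ 0 := by
    rintro rfl
    exact hk (CharP.charP_to_charZero _)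
  have hpp : p.Prime := (CharP.char_is_prime_or_zero (A ⧸ 𝔪) p).resolve_right hp0
  let κ := AlgebraicClosure (A ⧸ 𝔪)
  let h : A →+* κ := (algebraMap (A ⧸ 𝔪) κ).comp (Ideal.Quotient.mk 𝔪)
  have hchar : CharP κ p := charP_of_injective_algebraMap (algebraMap (A ⧸ 𝔪) κ).injective p
  have hunit : ∀ x y : A, x * y = 1 → h x ≠ 0 := by
    intro x y hxy h0
    have := congrArg h hxy
    rw [map_mul, h0, zero_mul, map_one] at this
    exact zero_ne_one this
  refine ⟨A, p, κ, inferInstance, inferInstance, hchar, h, hpp, ?_, ?_, ?_⟩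
  · by_contra hle
    push Not at hle
    have h1 : p ∣ C.factorial := (Nat.Prime.dvd_factorial hpp).2 hle
    have h2 : h ((C.factorial : ℕ) : A) ≠ 0 := by
      refine hunit _ ⟨((C.factorial : ℕ) : K)⁻¹, hTA _ (by simp [T'])⟩ ?_
      apply Subtype.ext
      have : ((C.factorial : ℕ) : K) ≠ 0 := Nat.cast_ne_zero.2 (Nat.factorial_ne_zero C)
      change (((C.factorial : ℕ) : A) : K) * _ = 1
      rw [show (((C.factorial : ℕ) : A) : K) = ((C.factorial : ℕ) : K) from by simp]
      exact mul_inv_cancel₀ this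
    apply h2
    rw [map_natCast]
    exact (CharP.cast_eq_zero_iff κ p _).2 h1
  · intro x hx
    exact hTA x (by simp [T', hx])
  · intro x hx hx0 hxA
    refine hunit _ ⟨x⁻¹, hTA _ ?_⟩ ?_
    · simp only [T', Finset.mem_union, Finset.mem_image]
      left
      right
      exact ⟨x, hx, rfl⟩
    · apply Subtype.ext
      exact mul_inv_cancel₀ hx0

end Pool.Agent.CB27
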