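import Mathlib
import Pool.Agent.CB.CIK1

/-!
# Slots: powers of commuting nilpotent forms

`slots`: if `f_i ^ p` kills the functional `Φ` for `i ∈ s`, then the functional
`(∏ f_i ^ (p-1)) Φ` generates a module of dimension at most `dim (S Φ) / p ^ #s`.
-/

set_option autoImplicit false
set_option linter.all false

noncomputable section

namespace Pool.Agent.CB27

open Module MvPolynomial Pool.Agent.CB

section Abstract

variable {K W : Type*} [Field K] [AddCommGroup W] [Module K W]

/-- one nilpotent operator -/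
lemma slot_one (N : Module.End K W) (V : Submodule K W) [FiniteDimensional K V]
    (hNV : V.map N ≤ V) {p : ℕ} (hp : 1 ≤ p) (hN : V.map (N ^ p) = ⊥) :
    p * finrank K (V.map (N ^ (p - 1))) ≤ finrank K V := by
  have hfin : ∀ i, FiniteDimensional K (V.map (N ^ i)) := fun i => inferInstance
  have hstep : ∀ i, V.map (N ^ (i + 1)) = (V.map (N ^ i)).map N := by
    intro i
    rw [pow_succ', ← Submodule.map_comp]
    rfl
  have hle : ∀ i, V.map (N ^ (i + 1)) ≤ V.map (N ^ i) := by
    intro i
    induction i with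
    | zero =>
      rw [hstep 0, pow_zero]
      have : V.map (1 : Module.End K W) = V := Submodule.map_id V
      rw [this]
      exact hNV
    | succ i ih =>
      calc V.map (N ^ (i + 1 + 1)) = (V.map (N ^ (i + 1))).map N := hstep (i + 1)
        _ ≤ (V.map (N ^ i)).map N := Submodule.map_mono ih
        _ = V.map (N ^ (i + 1)) := (hstep i).symm
  have hanti : ∀ i j, i ≤ j → V.map (N ^ j) ≤ V.map (N ^ i) := by
    intro i j hij
    induction j, hij using Nat.le_induction with
    | base => exact le_rfl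
    | succ j _ ih => exact (hle j).trans ih
  have key : ∀ k, k ≤ p → finrank K (V.map (N ^ k)) +
      k * finrank K (V.map (N ^ (p - 1))) ≤ finrank K V := by
    intro k
    induction k with
    | zero =>
      intro _
      have : V.map (N ^ 0) = V := by
        rw [pow_zero]
        exact Submodule.map_id V
      rw [this]
      simp
    | succ k ih =>
      intro hk
      have h1 := ih (by omega)
      have h2 := finrank_map_add_inf_ker N (V.map (N ^ k))
      rw [← hstep k] at h2
      have h3 : V.map (N ^ (p - 1)) ≤ V.map (N ^ k) ⊓ LinearMap.ker N := by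
        refine le_inf (hanti _ _ (by omega)) ?_
        intro x hx
        rw [LinearMap.mem_ker]
        have h4 : N x ∈ V.map (N ^ p) := by
          have : p = (p - 1) + 1 := by omega
          rw [this, hstep]
          exact Submodule.mem_map_of_mem hx
        rw [hN] at h4
        exact (Submodule.mem_bot K).1 h4
      have h4 : finrank K (V.map (N ^ (p - 1))) ≤
          finrank K (V.map (N ^ k) ⊓ LinearMap.ker N : Submodule K W) :=
        Submodule.finrank_mono h3
      have h5 : (k + 1) * finrank K (V.map (N ^ (p - 1))) =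
          k * finrank K (V.map (N ^ (p - 1))) + finrank K (V.map (N ^ (p - 1))) := by ring
      omega
  have := key p le_rfl
  omega

end Abstract

variable {K : Type*} [Field K] {n : ℕ}

/-- the module generated by a functional -/
def Mod (φ : MvPolynomial (Fin n) K →ₗ[K] K) : Submodule K (MvPolynomial (Fin n) K →ₗ[K] K) :=
  LinearMap.range (actφ φ)

lemma Mod_act (g : MvPolynomial (Fin n) K) (φ : MvPolynomial (Fin n) K →ₗ[K] K) :
    Mod (act g φ) = (Mod φ).map (act g) := by
  ext ψ
  constructor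
  · rintro ⟨u, rfl⟩
    refine ⟨act u φ, ⟨u, rfl⟩, ?_⟩
    rw [actφ_apply, act_comm]
  · rintro ⟨_, ⟨u, rfl⟩, rfl⟩
    refine ⟨u, ?_⟩
    rw [actφ_apply, actφ_apply, act_comm]

lemma act_mem_Mod (g : MvPolynomial (Fin n) K) {φ ψ : MvPolynomial (Fin n) K →ₗ[K] K}
    (h : ψ ∈ Mod φ) : act g ψ ∈ Mod φ := by
  obtain ⟨u, rfl⟩ := h
  refine ⟨u * g, ?_⟩
  rw [actφ_apply, actφ_apply, act_mul]

lemma P_le_Mod (φ : MvPolynomial (Fin n) K →ₗ[K] K) (s : ℕ) : P φ s ≤ Mod φ := by
  rintro _ ⟨g, -, rfl⟩
  exact ⟨g, rfl⟩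

lemma P_eq_bot {φ : MvPolynomial (Fin n) K →ₗ[K] K} {t s : ℕ} (hφ : φ ∈ DD K n t) (h : t < s) :
    P φ s = ⊥ := by
  rw [eq_bot_iff]
  rintro _ ⟨g, hg, rfl⟩
  rw [Submodule.mem_bot]
  exact mem_Ann.1 (mem_Ann_of_lt hφ h hg)

lemma Mod_eq_iSup {φ : MvPolynomial (Fin n) K →ₗ[K] K} {t : ℕ} (hφ : φ ∈ DD K n t) :
    Mod φ = ⨆ s ∈ Finset.range (t + 1), P φ s := by
  apply le_antisymm
  · rintro _ ⟨g, rfl⟩
    rw [← sum_homogeneousComponent g, map_sum]
    refine Submodule.sum_mem _ fun s _ => ?_
    by_cases hs : s ∈ Finset.range (t + 1)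
    · exact Submodule.mem_iSup_of_mem s (Submodule.mem_iSup_of_mem hs
        ⟨_, homogeneousComponent_isHomogeneous _ _, rfl⟩)
    · have : actφ φ (homogeneousComponent s g) ∈ P φ s :=
        ⟨_, homogeneousComponent_isHomogeneous _ _, rfl⟩
      rw [P_eq_bot hφ (by simpa using hs)] at this
      rw [(Submodule.mem_bot K).1 this]
      exact Submodule.zero_mem _
  · exact iSup₂_le fun s _ => P_le_Mod φ s

lemma DD_disj {i : ℕ} {T : Finset ℕ} (hi : i ∉ T)
    {ψ : MvPolynomial (Fin n) K →ₗ[K] K} (h1 : ψ ∈ DD K n i)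
    (h2 : ψ ∈ ⨆ s ∈ T, DD K n s) : ψ = 0 := by
  refine eq_zero_of_DD h1 fun f hf => ?_
  have h3 : (⨆ s ∈ T, DD K n s) ≤ LinearMap.ker
      (LinearMap.applyₗ (R := K) f : (MvPolynomial (Fin n) K →ₗ[K] K) →ₗ[K] K) := by
    refine iSup₂_le fun s hs => ?_
    intro χ hχ
    rw [LinearMap.mem_ker]
    exact hχ f i hf (by rintro rfl; exact hi hs)
  exact LinearMap.mem_ker.1 (h3 h2)

lemma fin_biSup (φ : MvPolynomial (Fin n) K →ₗ[K] K) (T : Finset ℕ) :
    FiniteDimensional K (⨆ s ∈ T, P φ s : Submodule K (MvPolynomial (Fin n) K →ₗ[K] K)) := by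
  rw [← Finset.sup_eq_iSup]
  infer_instance

lemma finrank_Mod {φ : MvPolynomial (Fin n) K →ₗ[K] K} {t : ℕ} (hφ : φ ∈ DD K n t) :
    finrank K (Mod φ) = ∑ s ∈ Finset.range (t + 1), finrank K (P φ s) := by
  rw [Mod_eq_iSup hφ]
  suffices H : ∀ T : Finset ℕ, T ⊆ Finset.range (t + 1) →
      finrank K (⨆ s ∈ T, P φ s : Submodule K _) = ∑ s ∈ T, finrank K (P φ s) from
    H _ (Finset.Subset.refl _)
  intro T
  induction T using Finset.induction_on with
  | empty =>
    intro _
    have : (⨆ s ∈ (∅ : Finset ℕ), P φ s : Submodule K _) = ⊥ := by simp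
    rw [this, finrank_bot, Finset.sum_empty]
  | insert a T ha ih =>
    intro hT
    have hT' : T ⊆ Finset.range (t + 1) := fun x hx => hT (Finset.mem_insert_of_mem hx)
    have hat : a ≤ t := by
      have := hT (Finset.mem_insert_self a T)
      rw [Finset.mem_range] at this
      omega
    have hfin := fin_biSup φ T
    have hdisj : (P φ a ⊓ ⨆ s ∈ T, P φ s : Submodule K _) = ⊥ := by
      rw [eq_bot_iff]
      intro ψ hψ
      rw [Submodule.mem_bot]
      have h1 : ψ ∈ DD K n (t - a) := P_le_DD hφ (by omega) hψ.1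
      refine DD_disj (T := T.image fun s => t - s) ?_ h1 ?_
      · intro hmem
        obtain ⟨s, hs, hs2⟩ := Finset.mem_image.1 hmem
        have h3 := hT' hs
        rw [Finset.mem_range] at h3
        have : s = a := by omega
        subst this
        exact ha hs
      · refine (iSup₂_le fun s hs => ?_ : (⨆ s ∈ T, P φ s) ≤ _) hψ.2
        have h3 := hT' hs
        rw [Finset.mem_range] at h3
        refine (P_le_DD hφ (i := t - s) (by omega)).trans ?_
        exact le_iSup₂_of_le (f := fun s (_ : s ∈ T.image fun s => t - s) => DD K n s) (t - s)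
          (Finset.mem_image_of_mem _ hs) le_rfl
    rw [Finset.iSup_insert, Finset.sum_insert ha, ← ih hT']
    have := Submodule.finrank_sup_add_finrank_inf_eq (P φ a) (⨆ s ∈ T, P φ s)
    rw [hdisj, finrank_bot, add_zero] at this
    exact this

lemma finiteDimensional_Mod {φ : MvPolynomial (Fin n) K →ₗ[K] K} {t : ℕ} (hφ : φ ∈ DD K n t) :
    FiniteDimensional K (Mod φ) := by
  rw [Mod_eq_iSup hφ]
  exact fin_biSup φ _

lemma act_pow (g : MvPolynomial (Fin n) K) (k : ℕ) : act (g ^ k) = (act g) ^ k := by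
  induction k with
  | zero =>
    apply LinearMap.ext
    intro ψ
    apply LinearMap.ext
    intro x
    simp
  | succ k ih =>
    apply LinearMap.ext
    intro ψ
    rw [pow_succ, act_mul, ih, pow_succ']
    rfl

/-- **Slots.** -/
theorem slots {p : ℕ} (hp : 1 ≤ p) {ι : Type*} (s : Finset ι)
    (f : ι → MvPolynomial (Fin n) K) {Φ : MvPolynomial (Fin n) K →ₗ[K] K}
    (hfin : FiniteDimensional K (Mod Φ)) (hf : ∀ i ∈ s, f i ^ p ∈ Ann Φ) :
    p ^ s.card * finrank K (Mod (act (∏ i ∈ s, f i ^ (p - 1)) Φ)) ≤ finrank K (Mod Φ) := by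
  classical
  induction s using Finset.induction_on with
  | empty =>
    have : act (1 : MvPolynomial (Fin n) K) Φ = Φ := by
      apply LinearMap.ext
      intro x
      simp
    rw [Finset.card_empty, Finset.prod_empty, this, pow_zero, one_mul]
  | insert a s ha ih =>
    have h1 := ih fun i hi => hf i (Finset.mem_insert_of_mem hi)
    set Ψ := act (∏ i ∈ s, f i ^ (p - 1)) Φ with hΨ
    have h2 : act (∏ i ∈ insert a s, f i ^ (p - 1)) Φ = act (f a ^ (p - 1)) Ψ := by
      rw [Finset.prod_insert ha, hΨ, ← act_mul, mul_comm]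
    have hle : Mod Ψ ≤ Mod Φ := by
      rw [hΨ, Mod_act]
      rintro _ ⟨ψ, hψ, rfl⟩
      exact act_mem_Mod _ hψ
    have hfin' : FiniteDimensional K (Mod Ψ) := Submodule.finiteDimensional_of_le hle
    have h3 : (Mod Ψ).map (act (f a)) ≤ Mod Ψ := by
      rintro _ ⟨ψ, hψ, rfl⟩
      exact act_mem_Mod _ hψ
    have h4 : (Mod Ψ).map ((act (f a)) ^ p) = ⊥ := by
      rw [← act_pow, eq_bot_iff]
      rintro _ ⟨ψ, hψ, rfl⟩
      rw [Submodule.mem_bot]
      obtain ⟨u, rfl⟩ := hle hψ
      rw [actφ_apply, act_comm, mem_Ann.1 (hf a (Finset.mem_insert_self a s)), map_zero]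
    have h5 := slot_one (act (f a)) (Mod Ψ) h3 hp h4
    rw [← act_pow, ← Mod_act, ← h2] at h5
    rw [Finset.card_insert_of_notMem ha, pow_succ, mul_assoc]
    exact (Nat.mul_le_mul_left _ h5).trans h1

end Pool.Agent.CB27
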