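import Mathlib
import Pool.Agent.CB27.Slots

/-!
# Counting: Hilbert series of regular sequences, and the lower bound for the Frobenius functional
-/

set_option autoImplicit false
set_option linter.all false

noncomputable section

namespace Pool.Agent.CB27

open Module MvPolynomial Pool.Agent.CB

section Counting

lemma two_sum_min {p : ℕ} (q : ℕ) :
    2 * q * p ≤ 2 * ∑ s ∈ Finset.range q, min s p + (p ^ 2 + p) := by
  induction q with
  | zero => simp
  | succ q ih =>
    rw [Finset.sum_range_succ]
    rcases le_total p q with h | h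
    · rw [min_eq_right h]
      nlinarith
    · have h1 : ∑ s ∈ Finset.range q, min s p = ∑ s ∈ Finset.range q, s :=
        Finset.sum_congr rfl fun s hs => by
          rw [Finset.mem_range] at hs
          exact min_eq_left (by omega)
      have h2 := Finset.sum_range_id_mul_two q
      have h3 : 2 * ∑ s ∈ Finset.range q, s + q = q * q := by
        rcases q with _ | q
        · simp
        · rw [mul_comm, h2]
          simp only [Nat.add_sub_cancel]
          ring
      rw [min_eq_left h, h1]
      obtain ⟨k, rfl⟩ := Nat.exists_eq_add_of_le h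
      nlinarith

variable {L : Type*} [Field L] {n : ℕ}

/-- **Counting by symmetry.** -/
theorem counting {σ N c1 e p : ℕ} {G : MvPolynomial (Fin n) L →ₗ[L] L}
    (hG : G ∈ DD L n σ) (hp : 1 ≤ p) (hσ : (e + 2) * p ≤ σ + 2)
    (h : ∀ s, 2 * s < (e + 2) * p → N * min s p ≤ finrank L (P G s) + c1) :
    N * (e + 1) * p ^ 2 ≤ finrank L (Mod G) + (3 * N + c1 * (e + 2)) * p := by
  classical
  set q := ((e + 2) * p - 1) / 2 with hq
  have hM : 2 ≤ (e + 2) * p := by nlinarith
  have hq1 : 2 * q + 1 ≤ (e + 2) * p := by omega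
  have hq2 : (e + 2) * p ≤ 2 * q + 2 := by omega
  set S := ∑ s ∈ Finset.range q, finrank L (P G s) with hS
  have h1 : 2 * S ≤ finrank L (Mod G) := by
    rw [finrank_Mod hG]
    have hinj : Set.InjOn (fun s => σ - s) (Finset.range q : Finset ℕ) := by
      intro a ha b hb hab
      rw [Finset.mem_coe, Finset.mem_range] at ha hb
      simp only at hab
      omega
    have h2 : ∑ s ∈ (Finset.range q).image (fun s => σ - s), finrank L (P G s) = S := by
      rw [Finset.sum_image hinj]
      refine Finset.sum_congr rfl fun s hs => ?_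
      rw [Finset.mem_range] at hs
      exact (finrank_P_symm hG (by omega)).symm
    have hdis : Disjoint (Finset.range q) ((Finset.range q).image (fun s => σ - s)) := by
      rw [Finset.disjoint_left]
      intro a ha hb
      obtain ⟨b, hb1, hb2⟩ := Finset.mem_image.1 hb
      rw [Finset.mem_range] at ha hb1
      omega
    calc 2 * S = S + ∑ s ∈ (Finset.range q).image (fun s => σ - s), finrank L (P G s) := by
          rw [h2]; ring
      _ = ∑ s ∈ Finset.range q ∪ (Finset.range q).image (fun s => σ - s),
            finrank L (P G s) := (Finset.sum_union hdis).symm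
      _ ≤ _ := by
          refine Finset.sum_le_sum_of_subset ?_
          intro a ha
          rw [Finset.mem_union] at ha
          rw [Finset.mem_range]
          rcases ha with ha | ha
          · rw [Finset.mem_range] at ha
            omega
          · obtain ⟨b, hb1, hb2⟩ := Finset.mem_image.1 ha
            omega
  have h2 : N * ∑ s ∈ Finset.range q, min s p ≤ S + q * c1 := by
    rw [Finset.mul_sum, hS]
    calc ∑ s ∈ Finset.range q, N * min s p ≤ ∑ s ∈ Finset.range q, (finrank L (P G s) + c1) := by
          refine Finset.sum_le_sum fun s hs => ?_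
          rw [Finset.mem_range] at hs
          exact h s (by omega)
      _ = _ := by
          rw [Finset.sum_add_distrib, Finset.sum_const, Finset.card_range, smul_eq_mul]
  have h3 := two_sum_min (p := p) q
  have h4 := Nat.mul_le_mul_left N h3
  have h5 : N * (((e + 2) * p) * p) ≤ N * ((2 * q + 2) * p) :=
    Nat.mul_le_mul_left N (Nat.mul_le_mul_right p hq2)
  have h6 : c1 * (2 * q + 1) ≤ c1 * ((e + 2) * p) := Nat.mul_le_mul_left c1 hq1
  nlinarith

/-- **Lower bound for the Hilbert function.** -/
theorem hilb_lower {N c0 b M p j0 : ℕ} {G : MvPolynomial (Fin n) L →ₗ[L] L}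
    {I : Ideal (MvPolynomial (Fin n) L)} {g : MvPolynomial (Fin n) L}
    (hI : HI I) (hlow : ∀ s, N * (s + 1) ≤ hd I s + c0) (hup : ∀ s, hd I s ≤ N * (s + 1))
    (hIG : I ≤ Ann G) (hg : g.IsHomogeneous j0) (hgG : g ∈ Ann G) (hnz : NZD I g)
    (h1 : ∀ j u, j < j0 → u.IsHomogeneous j → u ∈ Ann G → u ∈ I)
    (h2 : ∀ j u, j + j0 < M → u.IsHomogeneous j → u ∈ Ann G → ∃ w, u - g * w ∈ I)
    (h3 : p ≤ j0 ∨ M ≤ 2 * j0 + b) :
    ∀ s, 2 * s < M → N * min s p ≤ finrank L (P G s) + (c0 + N * b) := by
  intro s hs
  rw [finrank_P_eq]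
  by_cases hj : s < j0
  · have he : hd (Ann G) s = hd I s := by
      have : Jn (Ann G) s = Jn I s := by
        apply le_antisymm
        · intro x hx
          exact ⟨h1 s x hj hx.2 hx.1, hx.2⟩
        · exact Jn_mono hIG s
      unfold hd
      rw [this]
    have h4 := hlow s
    have h5 : N * min s p ≤ N * (s + 1) := Nat.mul_le_mul_left N (by omega)
    omega
  · push Not at hj
    have he : hd (Ann G) s = hd (I ⊔ Ideal.span {g}) s := by
      have : Jn (Ann G) s = Jn (I ⊔ Ideal.span {g}) s := by
        apply le_antisymm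
        · intro x hx
          obtain ⟨w, hw⟩ := h2 s x (by omega) hx.2 hx.1
          refine ⟨?_, hx.2⟩
          have : x = (x - g * w) + g * w := by ring
          rw [this]
          exact Ideal.add_mem _ (Ideal.mem_sup_left hw) (Ideal.mem_sup_right
            (Ideal.mul_mem_right _ _ (Ideal.mem_span_singleton_self g)))
        · refine Jn_mono (sup_le hIG ?_) s
          rw [Ideal.span_singleton_le_iff_mem]
          exact hgG
      unfold hd
      rw [this]
    have h4 := hd_col hI hg (s - j0)
    rw [hnz.col_eq, Nat.sub_add_cancel hj] at h4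
    have h5 := hlow s
    have h6 := hup (s - j0)
    rw [he]
    have h7 : N * (s + 1) = N * (s - j0 + 1) + N * j0 := by
      rw [← Nat.mul_add]
      congr 1
      omega
    have h8 : N * min s p ≤ N * j0 + N * b := by
      rw [← Nat.mul_add]
      exact Nat.mul_le_mul_left N (by omega)
    omega

end Counting

section HS

variable {L : Type*} [Field L] {n : ℕ}

/-- the Hilbert series -/
def HS (I : Ideal (MvPolynomial (Fin n) L)) : PowerSeries ℤ :=
  PowerSeries.mk fun s => (hd I s : ℤ)

lemma HS_sup {I : Ideal (MvPolynomial (Fin n) L)} (hI : HI I) {f : MvPolynomial (Fin n) L}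
    {d : ℕ} (hf : f.IsHomogeneous d) (hnz : NZD I f) :
    HS (I ⊔ Ideal.span {f}) = HS I * (1 - PowerSeries.X ^ d) := by
  ext s
  rw [mul_sub, mul_one, map_sub, PowerSeries.coeff_mul_X_pow', HS, HS, PowerSeries.coeff_mk,
    PowerSeries.coeff_mk]
  split_ifs with h
  · rw [PowerSeries.coeff_mk]
    have h4 := hd_col hI hf (s - d)
    rw [hnz.col_eq, Nat.sub_add_cancel h] at h4
    omega
  · rw [hd_low hI hf (by omega)]
    simp

lemma HS_IL {l : List (ℕ × MvPolynomial (Fin n) L)} (hok : ∀ a ∈ l, okf a) (hl : WR l) :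
    HS (IL l) = HS (⊥ : Ideal (MvPolynomial (Fin n) L)) *
      (l.map fun a => (1 - PowerSeries.X ^ a.1 : PowerSeries ℤ)).prod := by
  induction l with
  | nil => rw [IL_nil, List.map_nil, List.prod_nil, mul_one]
  | cons a l ih =>
    have hok' : ∀ b ∈ l, okf b := fun b hb => hok b (List.mem_cons_of_mem _ hb)
    rw [IL_cons, HS_sup (HI_IL hok') (hok a List.mem_cons_self).2 hl.2, ih hok' hl.1,
      List.map_cons, List.prod_cons]
    ring

lemma HS_bot : HS (⊥ : Ideal (MvPolynomial (Fin n) L)) * (1 - PowerSeries.X) ^ n = 1 := by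
  classical
  have hWR := WR_linear (K := L) (N := n) X X (fun i => by rw [aeval_X]) (fun i => by rw [aeval_X])
    (List.finRange n) (List.nodup_finRange n)
  have hok : ∀ a ∈ (List.finRange n).map (fun i => ((1 : ℕ), (X i : MvPolynomial (Fin n) L))),
      okf a := by
    intro a ha
    obtain ⟨i, -, rfl⟩ := List.mem_map.1 ha
    exact ⟨le_rfl, isHomogeneous_X L i⟩
  have h1 := HS_IL hok hWR
  rw [List.map_map, List.map_congr_left (g := fun _ => (1 - PowerSeries.X : PowerSeries ℤ))
    (fun i _ => by simp), List.map_const', List.prod_replicate, List.length_finRange] at h1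
  rw [← h1]
  ext s
  rw [HS, PowerSeries.coeff_mk, PowerSeries.coeff_one]
  split_ifs with h
  · subst h
    have h2 : hd (IL ((List.finRange n).map
        (fun i => ((1 : ℕ), (X i : MvPolynomial (Fin n) L))))) 0 = 1 := by
      have h3 : Jn (IL ((List.finRange n).map
        (fun i => ((1 : ℕ), (X i : MvPolynomial (Fin n) L))))) 0 = ⊥ := by
        rw [eq_bot_iff]
        rintro x ⟨hx1, hx2⟩
        rw [Submodule.mem_bot]
        have h4 : eval (0 : Fin n → L) x = 0 := by
          refine eval_eq_zero_of_mem_IL (l := (List.finRange n).map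
            (fun i => ((1 : ℕ), (X i : MvPolynomial (Fin n) L)))) ?_ hx1
          intro a ha
          obtain ⟨i, -, rfl⟩ := List.mem_map.1 ha
          simp
        have h5 : x.totalDegree = 0 := Nat.le_zero.1 (IsHomogeneous.totalDegree_le hx2)
        rw [totalDegree_eq_zero_iff_eq_C] at h5
        rw [h5, eval_C] at h4
        rw [h5, h4, C_0]
      unfold hd
      rw [h3, finrank_bot, finrank_S0]
    rw [h2]
    rfl
  · have h2 : hd (IL ((List.finRange n).map
        (fun i => ((1 : ℕ), (X i : MvPolynomial (Fin n) L))))) s = 0 := by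
      rw [hd_eq_zero_iff]
      intro x hx
      rw [← support_sum_monomial_coeff x]
      refine Ideal.sum_mem _ fun m hm => ?_
      have h3 := hx (mem_support_iff.1 hm)
      have h4 : m ≠ 0 := by
        rintro rfl
        rw [map_zero] at h3
        exact h h3.symm
      obtain ⟨i, hi⟩ := Finsupp.ne_iff.1 h4
      rw [Finsupp.zero_apply] at hi
      have h5 : monomial m (coeff m x) = X i * monomial (m - Finsupp.single i 1) (coeff m x) := by
        rw [X, monomial_mul, one_mul]
        congr 1
        rw [add_comm, tsub_add_cancel_of_le]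
        rw [Finsupp.single_le_iff]
        omega
      rw [h5]
      refine Ideal.mul_mem_right _ _ (mem_IL (a := ((1 : ℕ), (X i : MvPolynomial (Fin n) L))) ?_)
      exact List.mem_map.2 ⟨i, List.mem_finRange i, rfl⟩
    rw [h2]
    rfl

lemma mk_partial (f : ℕ → ℤ) :
    PowerSeries.mk (fun s => ∑ j ∈ Finset.range (s + 1), f j) * (1 - PowerSeries.X) =
      PowerSeries.mk f := by
  ext s
  rw [mul_sub, mul_one, map_sub, PowerSeries.coeff_mk, PowerSeries.coeff_mk]
  rcases s with _ | s
  · simp
  · rw [PowerSeries.coeff_succ_mul_X, PowerSeries.coeff_mk, Finset.sum_range_succ f (s + 1)]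
    ring

/-- the numerator of the Hilbert series -/
def QQ (l : List (ℕ × MvPolynomial (Fin n) L)) : Polynomial ℕ :=
  (l.map fun a => ∑ i ∈ Finset.range a.1, (Polynomial.X : Polynomial ℕ) ^ i).prod

lemma QQ_eval (l : List (ℕ × MvPolynomial (Fin n) L)) : (QQ l).eval 1 = pd l := by
  induction l with
  | nil => simp [QQ, pd]
  | cons a l ih =>
    have h1 : QQ (a :: l) = (∑ i ∈ Finset.range a.1, (Polynomial.X : Polynomial ℕ) ^ i) * QQ l := by
      rw [QQ, List.map_cons, List.prod_cons]
      rfl
    rw [h1, Polynomial.eval_mul, ih, Polynomial.eval_finset_sum]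
    simp [pd]

lemma QQ_natDegree (l : List (ℕ × MvPolynomial (Fin n) L)) : (QQ l).natDegree ≤ sd l := by
  induction l with
  | nil => simp [QQ, sd]
  | cons a l ih =>
    have h1 : QQ (a :: l) = (∑ i ∈ Finset.range a.1, (Polynomial.X : Polynomial ℕ) ^ i) * QQ l := by
      rw [QQ, List.map_cons, List.prod_cons]
      rfl
    have h2 : sd (a :: l) = (a.1 - 1) + sd l := by
      rw [sd, List.map_cons, List.sum_cons]
      rfl
    rw [h1, h2]
    refine Polynomial.natDegree_mul_le.trans (add_le_add ?_ ih)
    refine Polynomial.natDegree_sum_le_of_forall_le _ _ fun i hi => ?_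
    rw [Finset.mem_range] at hi
    exact (Polynomial.natDegree_X_pow_le i).trans (by omega)

lemma QQ_series (l : List (ℕ × MvPolynomial (Fin n) L)) :
    (l.map fun a => (1 - PowerSeries.X ^ a.1 : PowerSeries ℤ)).prod =
      PowerSeries.mk (fun s => ((QQ l).coeff s : ℤ)) * (1 - PowerSeries.X) ^ l.length := by
  have hmap : ∀ q : Polynomial ℕ, PowerSeries.mk (fun s => (q.coeff s : ℤ)) =
      ((q.map (Nat.castRingHom ℤ) : Polynomial ℤ) : PowerSeries ℤ) := by
    intro q
    ext s
    rw [PowerSeries.coeff_mk, Polynomial.coeff_coe, Polynomial.coeff_map]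
    rfl
  rw [hmap]
  induction l with
  | nil => simp [QQ]
  | cons a l ih =>
    have h1 : QQ (a :: l) = (∑ i ∈ Finset.range a.1, (Polynomial.X : Polynomial ℕ) ^ i) * QQ l := by
      rw [QQ, List.map_cons, List.prod_cons]
      rfl
    have h2 : (1 - PowerSeries.X ^ a.1 : PowerSeries ℤ) =
        (((∑ i ∈ Finset.range a.1, (Polynomial.X : Polynomial ℕ) ^ i).map (Nat.castRingHom ℤ) :
          Polynomial ℤ) : PowerSeries ℤ) * (1 - PowerSeries.X) := by
      have h3 : ((((∑ i ∈ Finset.range a.1, (Polynomial.X : Polynomial ℕ) ^ i).map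
          (Nat.castRingHom ℤ) : Polynomial ℤ)) : PowerSeries ℤ) =
          ∑ i ∈ Finset.range a.1, (PowerSeries.X : PowerSeries ℤ) ^ i := by
        rw [Polynomial.map_sum]
        have : ∀ s : Finset ℕ, (((∑ i ∈ s, Polynomial.map (Nat.castRingHom ℤ)
            ((Polynomial.X : Polynomial ℕ) ^ i) : Polynomial ℤ)) : PowerSeries ℤ) =
            ∑ i ∈ s, (PowerSeries.X : PowerSeries ℤ) ^ i := by
          intro s
          induction s using Finset.induction_on with
          | empty => simp
          | insert b s hb ih => rw [Finset.sum_insert hb, Finset.sum_insert hb,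
              Polynomial.coe_add, ih]; simp
        exact this _
      rw [h3]
      have := geom_sum_mul (PowerSeries.X : PowerSeries ℤ) a.1
      linear_combination this
    rw [List.map_cons, List.prod_cons, ih, h1, Polynomial.map_mul, Polynomial.coe_mul, h2,
      List.length_cons, pow_succ]
    ring

/-- Hilbert function of `n - 2` forms in `n` variables -/
lemma hd_IL {l : List (ℕ × MvPolynomial (Fin n) L)} (hok : ∀ a ∈ l, okf a) (hl : WR l)
    (hlen : n = l.length + 2) (s : ℕ) :
    hd (IL l) s = ∑ i ∈ Finset.range (s + 1), ∑ j ∈ Finset.range (i + 1), (QQ l).coeff j := by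
  have h1 := HS_IL hok hl
  have h2 := HS_bot (L := L) (n := n)
  have h3 := mk_partial fun s => ((QQ l).coeff s : ℤ)
  have h4 := mk_partial fun i => ∑ j ∈ Finset.range (i + 1), ((QQ l).coeff j : ℤ)
  have h5 : (1 - PowerSeries.X : PowerSeries ℤ) ≠ 0 := by
    intro h
    have := congrArg (PowerSeries.coeff (R := ℤ) 0) h
    simp at this
  have h6 : HS (IL l) = PowerSeries.mk (fun s => ∑ i ∈ Finset.range (s + 1),
      ∑ j ∈ Finset.range (i + 1), ((QQ l).coeff j : ℤ)) := by
    apply mul_right_cancel₀ (pow_ne_zero n h5)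
    have h7 : HS (IL l) * (1 - PowerSeries.X) ^ n =
        PowerSeries.mk (fun s => ((QQ l).coeff s : ℤ)) * (1 - PowerSeries.X) ^ l.length := by
      rw [h1, mul_right_comm, h2, one_mul, QQ_series]
    have h8 : (1 - PowerSeries.X : PowerSeries ℤ) ^ n = (1 - PowerSeries.X) ^ l.length *
        (1 - PowerSeries.X) ^ 2 := by
      rw [← pow_add]
      exact congrArg _ hlen
    rw [h7, h8, ← h3, ← h4]
    ring
  have h7 := congrArg (PowerSeries.coeff (R := ℤ) s) h6
  rw [HS, PowerSeries.coeff_mk, PowerSeries.coeff_mk] at h7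
  exact_mod_cast h7

lemma QQ_partial_le (l : List (ℕ × MvPolynomial (Fin n) L)) (i : ℕ) :
    ∑ j ∈ Finset.range i, (QQ l).coeff j ≤ pd l := by
  have h1 : (QQ l).eval 1 = ∑ j ∈ Finset.range (max i ((QQ l).natDegree + 1)), (QQ l).coeff j := by
    rw [Polynomial.eval_eq_sum_range' (n := max i ((QQ l).natDegree + 1)) (by omega)]
    simp
  rw [← QQ_eval, h1]
  refine Finset.sum_le_sum_of_subset ?_
  intro a ha
  rw [Finset.mem_range] at ha ⊢
  omega

lemma QQ_partial_eq (l : List (ℕ × MvPolynomial (Fin n) L)) {i : ℕ} (hi : sd l < i) :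
    ∑ j ∈ Finset.range i, (QQ l).coeff j = pd l := by
  rw [← QQ_eval, Polynomial.eval_eq_sum_range' (n := i)
    (lt_of_le_of_lt (QQ_natDegree l) hi)]
  simp

lemma hd_IL_le {l : List (ℕ × MvPolynomial (Fin n) L)} (hok : ∀ a ∈ l, okf a) (hl : WR l)
    (hlen : n = l.length + 2) (s : ℕ) : hd (IL l) s ≤ pd l * (s + 1) := by
  rw [hd_IL hok hl hlen]
  calc _ ≤ ∑ i ∈ Finset.range (s + 1), pd l := Finset.sum_le_sum fun i _ => QQ_partial_le l _
    _ = _ := by rw [Finset.sum_const, Finset.card_range, smul_eq_mul, mul_comm]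

lemma le_hd_IL {l : List (ℕ × MvPolynomial (Fin n) L)} (hok : ∀ a ∈ l, okf a) (hl : WR l)
    (hlen : n = l.length + 2) (s : ℕ) : pd l * (s + 1) ≤ hd (IL l) s + pd l * sd l := by
  rw [hd_IL hok hl hlen]
  have h1 : ∀ i, pd l ≤ ∑ j ∈ Finset.range (i + 1), (QQ l).coeff j +
      if i < sd l then pd l else 0 := by
    intro i
    split_ifs with h
    · omega
    · rw [QQ_partial_eq l (by omega)]
      omega
  calc pd l * (s + 1) = ∑ i ∈ Finset.range (s + 1), pd l := by
        rw [Finset.sum_const, Finset.card_range, smul_eq_mul, mul_comm]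
    _ ≤ ∑ i ∈ Finset.range (s + 1), (∑ j ∈ Finset.range (i + 1), (QQ l).coeff j +
          if i < sd l then pd l else 0) := Finset.sum_le_sum fun i _ => h1 i
    _ ≤ _ := by
        rw [Finset.sum_add_distrib]
        refine Nat.add_le_add_left ?_ _
        rw [← Finset.sum_filter, Finset.sum_const, smul_eq_mul, mul_comm]
        refine Nat.mul_le_mul_left _ ?_
        calc _ ≤ (Finset.range (sd l)).card := by
              refine Finset.card_le_card ?_
              intro i hi
              rw [Finset.mem_filter] at hi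
              rw [Finset.mem_range]
              exact hi.2
          _ = _ := Finset.card_range _

end HS

end Pool.Agent.CB27
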