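import Mathlib
import Pool.Agent.CB27.Slots

/-!
# The Frobenius functional

For a functional `φ` on `κ[x_1..x_n]`, `char κ = p`, and a `κ`-algebra `A`, `frob p A φ` is the
`A`-linear functional on `A[x_1..x_n]` with value `φ(x^γ)^p` on `x^(pγ + (p-1,...,p-1))` and `0` on
all other monomials.
-/

set_option autoImplicit false
set_option linter.all false

noncomputable section

namespace Pool.Agent.CB27

open Module MvPolynomial Pool.Agent.CB

variable {κ : Type*} [Field κ] {n : ℕ} (p : ℕ)

/-- exponent division -/
def divE (β : Fin n →₀ ℕ) : Fin n →₀ ℕ := β.mapRange (fun k => k / p) (Nat.zero_div p)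

@[simp] lemma divE_apply (β : Fin n →₀ ℕ) (i : Fin n) : divE p β i = β i / p := by
  simp [divE]

/-- all exponents are `-1` mod `p` -/
def full (β : Fin n →₀ ℕ) : Prop := ∀ i, β i % p = p - 1

instance (β : Fin n →₀ ℕ) : Decidable (full p β) := by
  unfold full
  infer_instance

/-- value of the Frobenius functional on a monomial -/
def fval (φ : MvPolynomial (Fin n) κ →ₗ[κ] κ) (β : Fin n →₀ ℕ) : κ :=
  if full p β then (φ (monomial (divE p β) 1)) ^ p else 0

variable (A : Type*) [CommRing A] [Algebra κ A]

/-- the Frobenius functional -/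
def frob (φ : MvPolynomial (Fin n) κ →ₗ[κ] κ) : MvPolynomial (Fin n) A →ₗ[A] A :=
  (MvPolynomial.basisMonomials (Fin n) A).constr A fun β => algebraMap κ A (fval p φ β)

variable {A}

lemma frob_monomial (φ : MvPolynomial (Fin n) κ →ₗ[κ] κ) (β : Fin n →₀ ℕ) (c : A) :
    frob p A φ (monomial β c) = c * algebraMap κ A (fval p φ β) := by
  have h1 : (monomial β c : MvPolynomial (Fin n) A) = c • (basisMonomials (Fin n) A) β := by
    rw [coe_basisMonomials, smul_monomial, smul_eq_mul, mul_one]
  rw [h1, map_smul, frob, Basis.constr_basis, smul_eq_mul]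

/-- naturality in the algebra -/
lemma frob_map {B : Type*} [CommRing B] [Algebra κ B] (h : A →ₐ[κ] B)
    (φ : MvPolynomial (Fin n) κ →ₗ[κ] κ) (g : MvPolynomial (Fin n) A) :
    frob p B φ (map (h : A →+* B) g) = h (frob p A φ g) := by
  induction g using MvPolynomial.induction_on' with
  | monomial β c =>
    rw [map_monomial, frob_monomial, frob_monomial, map_mul, AlgHom.commutes]
    rfl
  | add a b ha hb => rw [map_add, map_add, ha, hb, map_add, map_add]

/-- integration by parts in the variables -/
lemma frob_pderiv [CharP κ p] (hp : p.Prime) (φ : MvPolynomial (Fin n) κ →ₗ[κ] κ) (a : Fin n)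
    (g : MvPolynomial (Fin n) A) : frob p A φ (pderiv a g) = 0 := by
  induction g using MvPolynomial.induction_on' with
  | monomial β c =>
    rw [pderiv_monomial, frob_monomial]
    have hcast : ∀ k : ℕ, k % p = 0 → ((k : ℕ) : A) = 0 := by
      intro k hk
      have h1 : ((k : ℕ) : κ) = 0 := (CharP.cast_eq_zero_iff κ p k).2 (Nat.dvd_of_mod_eq_zero hk)
      rw [← map_natCast (algebraMap κ A), h1, map_zero]
    by_cases h0 : β a % p = 0
    · rw [hcast _ h0, mul_zero, zero_mul]
    · have h1 : ¬ full p (β - Finsupp.single a 1) := by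
        intro hf
        have h2 := hf a
        rw [Finsupp.tsub_apply, Finsupp.single_eq_same] at h2
        have h3 : 1 ≤ β a := by
          rcases Nat.eq_zero_or_pos (β a) with h | h
          · rw [h, Nat.zero_mod] at h0
            exact absurd rfl h0
          · exact h
        have h4 : (β a) % p = ((β a - 1) % p + 1) % p := by
          conv_lhs => rw [← Nat.sub_add_cancel h3]
          rw [Nat.add_mod, Nat.mod_eq_of_lt (a := 1) hp.one_lt]
        rw [h2, Nat.sub_add_cancel hp.one_lt.le, Nat.mod_self] at h4
        exact h0 h4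
      rw [fval, if_neg h1, map_zero, mul_zero]
  | add a b ha hb => rw [map_add, map_add, ha, hb, add_zero]

/-- integration by parts in the coefficients -/
lemma frob_coeff (D : A →+ A) (hD : ∀ (c : A) (k : κ), D (c * algebraMap κ A k) =
      D c * algebraMap κ A k)
    (δ : MvPolynomial (Fin n) A →+ MvPolynomial (Fin n) A)
    (hδ : ∀ β c, δ (monomial β c) = monomial β (D c))
    (φ : MvPolynomial (Fin n) κ →ₗ[κ] κ) (g : MvPolynomial (Fin n) A) :
    frob p A φ (δ g) = D (frob p A φ g) := by
  induction g using MvPolynomial.induction_on' with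
  | monomial β c => rw [hδ, frob_monomial, frob_monomial, hD]
  | add a b ha hb => rw [map_add, map_add, ha, hb, map_add, map_add]

/-- the exponent with all entries below `p` -/
def modE (β : Fin n →₀ ℕ) : Fin n →₀ ℕ := β.mapRange (fun k => k % p) (Nat.zero_mod p)

@[simp] lemma modE_apply (β : Fin n →₀ ℕ) (i : Fin n) : modE p β i = β i % p := by
  simp [modE]

lemma modE_add (β : Fin n →₀ ℕ) : modE p β + p • divE p β = β := by
  ext i
  simp [Nat.mod_add_div]

lemma full_add (α γ : Fin n →₀ ℕ) : full p (α + p • γ) ↔ full p α := by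
  unfold full
  refine forall_congr' fun i => ?_
  rw [Finsupp.add_apply, Finsupp.smul_apply, smul_eq_mul, Nat.add_mul_mod_self_left]

lemma divE_add {α : Fin n →₀ ℕ} (hα : ∀ i, α i < p) (γ : Fin n →₀ ℕ) (hp : 0 < p) :
    divE p (α + p • γ) = γ := by
  ext i
  rw [divE_apply, Finsupp.add_apply, Finsupp.smul_apply, smul_eq_mul,
    Nat.add_mul_div_left _ _ hp, Nat.div_eq_of_lt (hα i), zero_add]

lemma fval_add {α : Fin n →₀ ℕ} (hα : ∀ i, α i < p) (γ : Fin n →₀ ℕ) (hp : 0 < p)
    (φ : MvPolynomial (Fin n) κ →ₗ[κ] κ) :
    fval p φ (α + p • γ) = if full p α then (φ (monomial γ 1)) ^ p else 0 := by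
  rw [fval]
  by_cases h : full p α
  · rw [if_pos ((full_add p α γ).2 h), if_pos h, divE_add p hα γ hp]
  · rw [if_neg (fun h' => h ((full_add p α γ).1 h')), if_neg h]

/-- the main formula -/
lemma frob_mul_pow [CharP κ p] [Fact p.Prime] {α : Fin n →₀ ℕ} (hα : ∀ i, α i < p)
    (φ : MvPolynomial (Fin n) κ →ₗ[κ] κ) (c : A) (u : MvPolynomial (Fin n) κ) :
    frob p A φ (monomial α c * (map (algebraMap κ A) u) ^ p) =
      if full p α then c * algebraMap κ A ((φ u) ^ p) else 0 := by
  have hp : p.Prime := Fact.out
  by_cases hA : Nontrivial A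
  · have hcA : CharP A p := charP_of_injective_algebraMap (algebraMap κ A).injective p
    have hcM : CharP (MvPolynomial (Fin n) A) p := inferInstance
    induction u using MvPolynomial.induction_on' with
    | monomial γ k =>
      rw [map_monomial, monomial_pow, monomial_mul, frob_monomial, fval_add p hα γ hp.pos]
      have h1 : φ (monomial γ k) = k * φ (monomial γ 1) := by
        have : (monomial γ k : MvPolynomial (Fin n) κ) = k • monomial γ 1 := by
          rw [smul_monomial, smul_eq_mul, mul_one]
        rw [this, map_smul, smul_eq_mul]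
      split_ifs with h
      · rw [h1]
        simp only [mul_pow, map_mul, map_pow, mul_assoc]
      · rw [map_zero, mul_zero]
    | add a b ha hb =>
      rw [map_add, add_pow_char, mul_add, map_add, ha, hb, map_add, add_pow_char]
      split_ifs with h
      · rw [map_add, mul_add]
      · rw [add_zero]
  · rw [not_nontrivial_iff_subsingleton] at hA
    exact Subsingleton.elim _ _

lemma span_monomials {L : Type*} [Field L] (g : MvPolynomial (Fin n) L) :
    g ∈ Submodule.span L (Set.range fun β : Fin n →₀ ℕ => (monomial β (1 : L))) := by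
  rw [← coe_basisMonomials]
  rw [Basis.span_eq]
  trivial

/-- `p`-th powers of annihilating forms annihilate the Frobenius functional. -/
lemma pow_mem_Ann [CharP κ p] [Fact p.Prime] {L : Type*} [Field L] [Algebra κ L]
    {φ : MvPolynomial (Fin n) κ →ₗ[κ] κ} {u : MvPolynomial (Fin n) κ} (hu : u ∈ Ann φ) :
    (map (algebraMap κ L) u) ^ p ∈ Ann (frob p L φ) := by
  have hp : p.Prime := Fact.out
  rw [mem_Ann']
  intro g
  have hg := span_monomials g
  induction hg using Submodule.span_induction with
  | mem x hx =>
    obtain ⟨β, rfl⟩ := hx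
    have h1 : (map (algebraMap κ L) u) ^ p * monomial β (1 : L) =
        monomial (modE p β) (1 : L) * (map (algebraMap κ L) (u * monomial (divE p β) 1)) ^ p := by
      rw [map_mul, mul_pow, map_monomial, monomial_pow, map_one (algebraMap κ L), one_pow,
        mul_left_comm, monomial_mul, modE_add, mul_one]
    change frob p L φ ((map (algebraMap κ L) u) ^ p * monomial β (1 : L)) = 0
    rw [h1, frob_mul_pow p (fun i => by
      rw [modE_apply]
      exact Nat.mod_lt _ hp.pos), mem_Ann'.1 hu, zero_pow hp.ne_zero, map_zero, mul_zero]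
    split_ifs <;> rfl
  | zero => rw [mul_zero, map_zero]
  | add a b _ _ ha hb => rw [mul_add, map_add, ha, hb, add_zero]
  | smul c a _ ha => rw [mul_smul_comm, map_smul, ha, smul_zero]

/-- the Frobenius functional is homogeneous -/
lemma frob_mem_DD {L : Type*} [Field L] [Algebra κ L] (hp : 0 < p)
    {φ : MvPolynomial (Fin n) κ →ₗ[κ] κ} {t : ℕ} (hφ : φ ∈ DD κ n t) :
    frob p L φ ∈ DD L n (t * p + n * (p - 1)) := by
  intro f m hf hm
  rw [f.as_sum, map_sum]
  refine Finset.sum_eq_zero fun β hβ => ?_
  rw [frob_monomial]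
  have h1 : Finsupp.degree β = m := by
    rw [Finsupp.degree_eq_weight_one]
    exact hf (mem_support_iff.1 hβ)
  have h2 : fval p φ β = 0 := by
    rw [fval]
    split_ifs with h
    · have h3 : φ (monomial (divE p β) 1) = 0 := by
        refine hφ _ (Finsupp.degree (divE p β)) (isHomogeneous_monomial _ rfl) ?_
        intro h4
        apply hm
        rw [← h1, ← h4, Finsupp.degree_eq_sum, Finsupp.degree_eq_sum, Finset.sum_mul]
        have : n * (p - 1) = ∑ _i : Fin n, (p - 1) := by simp
        rw [this, ← Finset.sum_add_distrib]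
        refine Finset.sum_congr rfl fun i _ => ?_
        rw [divE_apply, ← h i, Nat.div_add_mod']
      rw [h3, zero_pow hp.ne']
    · rfl
  rw [h2, map_zero, mul_zero]

lemma exists_monomial_ne {φ : MvPolynomial (Fin n) κ →ₗ[κ] κ} (hφ : φ ≠ 0) :
    ∃ γ, φ (monomial γ 1) ≠ 0 := by
  by_contra hcon
  push Not at hcon
  apply hφ
  apply LinearMap.ext
  intro g
  have hg := span_monomials g
  induction hg using Submodule.span_induction with
  | mem x hx =>
    obtain ⟨β, rfl⟩ := hx
    exact hcon β
  | zero => rw [map_zero, map_zero]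
  | add a b _ _ ha hb => rw [map_add, map_add, ha, hb]
  | smul c a _ ha => rw [map_smul, map_smul, ha]

lemma frob_ne_zero (hp : 0 < p) {L : Type*} [Field L] [Algebra κ L]
    {φ : MvPolynomial (Fin n) κ →ₗ[κ] κ} (hφ : φ ≠ 0) : frob p L φ ≠ 0 := by
  obtain ⟨γ, hγ⟩ := exists_monomial_ne hφ
  intro h
  let α : Fin n →₀ ℕ := Finsupp.equivFunOnFinite.symm fun _ => p - 1
  have hα : ∀ i, α i = p - 1 := fun i => by simp [α]
  have h1 := frob_monomial p (A := L) φ (α + p • γ) 1
  have hf : full p α := fun i => by rw [hα]; exact Nat.mod_eq_of_lt (by omega)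
  rw [h, LinearMap.zero_apply, one_mul, fval_add p (fun i => by rw [hα]; omega) γ hp,
    if_pos hf] at h1
  exact pow_ne_zero p hγ ((map_eq_zero _).1 h1.symm)

/-- the length of the module generated by the Frobenius functional -/
theorem finrank_Mod_frob [CharP κ p] [Fact p.Prime] {L : Type*} [Field L] [Algebra κ L]
    (φ : MvPolynomial (Fin n) κ →ₗ[κ] κ) (hfin : FiniteDimensional κ (Mod φ)) :
    FiniteDimensional L (Mod (frob p L φ)) ∧
      finrank L (Mod (frob p L φ)) ≤ p ^ n * finrank κ (Mod φ) := by
  classical
  have hp : p.Prime := Fact.out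
  have hcL : CharP L p := charP_of_injective_algebraMap (algebraMap κ L).injective p
  have hcM : CharP (MvPolynomial (Fin n) L) p := inferInstance
  -- a spanning family of `S` modulo `Ann φ`
  haveI : Module.Free κ (Mod φ) :=
    @Module.Free.of_divisionRing κ (Mod φ) _ (Submodule.addCommGroup _) _
  let bas := Module.finBasis κ (Mod φ)
  have hex : ∀ j, ∃ g, act g φ = (bas j : MvPolynomial (Fin n) κ →ₗ[κ] κ) := by
    intro j
    obtain ⟨g, hg⟩ := (bas j).2
    exact ⟨g, hg⟩
  choose σ hσ using hex
  let v : (Fin n → Fin p) × Fin (finrank κ (Mod φ)) → (MvPolynomial (Fin n) L →ₗ[L] L) :=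
    fun q => act (monomial (Finsupp.equivFunOnFinite.symm fun i => (q.1 i : ℕ)) (1 : L) *
      (map (algebraMap κ L) (σ q.2)) ^ p) (frob p L φ)
  have hle : Mod (frob p L φ) ≤ Submodule.span L (Set.range v) := by
    rintro _ ⟨g, rfl⟩
    have hg := span_monomials g
    induction hg using Submodule.span_induction with
    | mem x hx =>
      obtain ⟨β, rfl⟩ := hx
      -- decompose `x^(div β)`
      have h1 : act (monomial (divE p β) (1 : κ)) φ ∈ Mod φ := ⟨_, rfl⟩
      let cc := bas.repr ⟨_, h1⟩
      have h2 : act (monomial (divE p β) (1 : κ)) φ = ∑ j, cc j • act (σ j) φ := by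
        have h2' : ((∑ i, (bas.repr ⟨_, h1⟩) i • bas i : Mod φ) :
            MvPolynomial (Fin n) κ →ₗ[κ] κ) = act (monomial (divE p β) (1 : κ)) φ :=
          congrArg Subtype.val (bas.sum_repr ⟨_, h1⟩)
        rw [← h2', Submodule.coe_sum]
        refine Finset.sum_congr rfl fun j _ => ?_
        rw [Submodule.coe_smul, hσ]
      have h3 : monomial (divE p β) (1 : κ) - ∑ j, C (cc j) * σ j ∈ Ann φ := by
        rw [mem_Ann]
        have h4 : actφ φ (monomial (divE p β) (1 : κ) - ∑ j, C (cc j) * σ j) = 0 := by
          rw [map_sub, map_sum, actφ_apply, h2, sub_eq_zero]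
          refine Finset.sum_congr rfl fun j _ => ?_
          rw [← smul_eq_C_mul, map_smul, actφ_apply]
        exact h4
      have h5 := pow_mem_Ann p (L := L) h3
      have h6 : (map (algebraMap κ L) (monomial (divE p β) (1 : κ) - ∑ j, C (cc j) * σ j)) ^ p =
          monomial (p • divE p β) (1 : L) - ∑ j, C ((algebraMap κ L (cc j)) ^ p) *
            (map (algebraMap κ L) (σ j)) ^ p := by
        rw [map_sub, sub_pow_char, map_monomial, monomial_pow, map_one, one_pow, map_sum,
          sum_pow_char]
        congr 1
        refine Finset.sum_congr rfl fun j _ => ?_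
        rw [map_mul, mul_pow, map_C, ← C_pow]
      rw [h6] at h5
      have h7 : actφ (frob p L φ) (monomial β (1 : L)) = ∑ j, (algebraMap κ L (cc j)) ^ p •
          v ((fun i => ⟨β i % p, Nat.mod_lt _ hp.pos⟩), j) := by
        have h8 := mem_Ann.1 ((Ann (frob p L φ)).mul_mem_left (monomial (modE p β) (1 : L)) h5)
        have h9 : monomial (modE p β) (1 : L) * (monomial (p • divE p β) (1 : L) -
            ∑ j, C ((algebraMap κ L (cc j)) ^ p) * (map (algebraMap κ L) (σ j)) ^ p) =
            monomial β (1 : L) - ∑ j, (algebraMap κ L (cc j)) ^ p •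
              (monomial (modE p β) (1 : L) * (map (algebraMap κ L) (σ j)) ^ p) := by
          rw [mul_sub, monomial_mul, modE_add, mul_one, Finset.mul_sum]
          congr 1
          refine Finset.sum_congr rfl fun j _ => ?_
          rw [smul_eq_C_mul, mul_left_comm]
        rw [h9] at h8
        have h10 : actφ (frob p L φ) (monomial β (1 : L) - ∑ j, (algebraMap κ L (cc j)) ^ p •
              (monomial (modE p β) (1 : L) * (map (algebraMap κ L) (σ j)) ^ p)) = 0 := h8
        rw [map_sub, sub_eq_zero] at h10
        rw [h10, map_sum]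
        refine Finset.sum_congr rfl fun j _ => ?_
        rw [map_smul]
        have h11 : (Finsupp.equivFunOnFinite.symm fun i => β i % p) = modE p β := by
          ext i
          simp
        simp only [v, h11]
        rfl
      change actφ (frob p L φ) (monomial β (1 : L)) ∈ _
      rw [h7]
      exact Submodule.sum_mem _ fun j _ => Submodule.smul_mem _ _
        (Submodule.subset_span ⟨_, rfl⟩)
    | zero =>
      rw [map_zero]
      exact Submodule.zero_mem _
    | add a b _ _ ha hb =>
      rw [map_add]
      exact Submodule.add_mem _ ha hb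
    | smul c a _ ha =>
      rw [map_smul]
      exact Submodule.smul_mem _ _ ha
  have hfs : FiniteDimensional L (Submodule.span L (Set.range v)) :=
    FiniteDimensional.span_of_finite L (Set.finite_range v)
  refine ⟨Submodule.finiteDimensional_of_le hle, (Submodule.finrank_mono hle).trans ?_⟩
  refine (finrank_range_le_card v).trans ?_
  rw [Fintype.card_prod, Fintype.card_fun, Fintype.card_fin, Fintype.card_fin, Fintype.card_fin]

end Pool.Agent.CB27
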