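import Mathlib
import Pool.Agent.CB27.Count
import Pool.Agent.CB27.Frob
import Pool.Agent.K1Z.Defs

/-!
# The bound from the structure of `Ann G` in low degrees
-/

set_option autoImplicit false
set_option linter.all false

noncomputable section

namespace Pool.Agent.CB27

open Module MvPolynomial Pool.Agent.CB Pool.Agent.K1Z

lemma final_arith {N e p δ C A : ℕ} (h1 : N * (e + 1) * p ^ 2 ≤ A + C * p) (h2 : A ≤ p ^ 2 * δ)
    (hC : C < p) : N * (e + 1) ≤ δ := by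
  by_contra hcon
  push Not at hcon
  have h3 : p ^ 2 * (δ + 1) ≤ p ^ 2 * (N * (e + 1)) := Nat.mul_le_mul_left _ hcon
  have h4 : C * p < p ^ 2 := by
    rw [pow_two]
    exact Nat.mul_lt_mul_of_pos_right hC (by omega)
  nlinarith

variable {κ : Type*} [Field κ] {n r : ℕ}

lemma prod_pow_hom {L : Type*} [Field L] {d : Fin r → ℕ} {f : Fin r → MvPolynomial (Fin n) L}
    (hf : ∀ i, (f i).IsHomogeneous (d i)) (k : ℕ) :
    (∏ i, f i ^ k).IsHomogeneous ((∑ i, d i) * k) := by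
  rw [Finset.sum_mul]
  exact IsHomogeneous.prod _ _ _ fun i _ => (hf i).pow k

lemma GG_mem_DD {Z : Type*} [Field Z] [Algebra κ Z] [Algebra (Lam κ r) Z] (P : Pen κ n r)
    {p t e : ℕ} (hp : 0 < p) (hn : n = r + 2) {φ : MvPolynomial (Fin n) κ →ₗ[κ] κ}
    (hφ : φ ∈ DD κ n t) (ht : t = e + ∑ i, (P.d i - 1)) :
    P.GG Z p φ ∈ DD Z n ((e + 2) * p + P.bb - n) := by
  refine act_mem_DD (prod_pow_hom P.fZ_hom (p - 1)) ?_
  have h1 := frob_mem_DD (L := Z) p hp hφ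
  have h2 : ∑ i, (P.d i - 1) + r = P.bb := by
    rw [Pen.bb]
    have : ∑ i : Fin r, (P.d i - 1) + ∑ i : Fin r, 1 = ∑ i, P.d i := by
      rw [← Finset.sum_add_distrib]
      refine Finset.sum_congr rfl fun i _ => ?_
      have := P.hd i
      omega
    rw [← this]
    simp
  have h3 : (e + 2) * p + P.bb - n + (∑ i, P.d i) * (p - 1) = t * p + n * (p - 1) := by
    have h4 : (∑ i, P.d i) = P.bb := rfl
    rw [h4]
    obtain ⟨q, rfl⟩ : ∃ q, p = q + 1 := ⟨p - 1, by omega⟩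
    rw [Nat.add_sub_cancel]
    have h5 : n ≤ (e + 2) * (q + 1) + P.bb := by
      have : 2 ≤ (e + 2) * (q + 1) := by nlinarith
      omega
    zify [h5]
    have h6 : (t : ℤ) = e + P.bb - r := by
      have : t + r = e + P.bb := by omega
      have : (t : ℤ) + r = e + P.bb := by exact_mod_cast this
      linarith
    have h7 : (n : ℤ) = r + 2 := by exact_mod_cast hn
    rw [h6, h7]
    ring
  rw [h3]
  exact h1

/-- **The bound in characteristic `p`, from the structure of the annihilator.** -/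
theorem core_of_struct {Z : Type*} [Field Z] [Algebra κ Z] [Algebra (Lam κ r) Z] (P : Pen κ n r)
    {p t e : ℕ} [CharP κ p] [hp : Fact p.Prime] (hn : n = r + 2)
    {φ : MvPolynomial (Fin n) κ →ₗ[κ] κ} (hφ : φ ∈ DD κ n t) (ht : t = e + ∑ i, (P.d i - 1))
    (hreg : WR (P.FL Z)) (hprime : (P.IZ Z).IsPrime)
    (h0 : ∀ i, P.a0 i ∈ Ann φ) (h0' : ∀ i, P.b0 i ∈ Ann φ) (h1 : ∀ i, P.a1 i ∈ Ann φ)
    (h1' : ∀ i, P.b1 i ∈ Ann φ)
    (hst : ∃ (j0 : ℕ) (g : MvPolynomial (Fin n) Z), 1 ≤ j0 ∧ g.IsHomogeneous j0 ∧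
      g ∈ Ann (P.GG Z p φ) ∧ g ∉ P.IZ Z ∧
      (∀ j < j0, ∀ g', g'.IsHomogeneous j → g' ∈ Ann (P.GG Z p φ) → g' ∈ P.IZ Z) ∧
      (∀ j g', j + j0 < (e + 2) * p → g'.IsHomogeneous j → g' ∈ Ann (P.GG Z p φ) →
        ∃ w, g' - g * w ∈ P.IZ Z) ∧
      (p ≤ j0 ∨ (e + 2) * p ≤ 2 * j0 + P.bb))
    (hC : 3 * (∏ i, P.d i) + ((∏ i, P.d i) * (∑ i, (P.d i - 1)) + (∏ i, P.d i) * P.bb) * (e + 2)
      < p) :
    (∏ i, P.d i) * (e + 1) ≤ finrank κ (Mod φ) := by
  have hp1 : 1 ≤ p := hp.out.one_lt.le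
  obtain ⟨j0, g, -, hg, hgG, hgI, hA, hB, hj⟩ := hst
  have hlen : n = (P.FL Z).length + 2 := by rw [P.FL_length]; exact hn
  have hlow := le_hd_IL P.okf_FL hreg hlen
  have hup := hd_IL_le P.okf_FL hreg hlen
  rw [P.pd_FL] at hlow hup
  rw [P.sd_FL] at hlow
  have hnz : NZD (P.IZ Z) g := fun u hu => (hprime.mem_or_mem hu).resolve_left hgI
  have key := hilb_lower (G := P.GG Z p φ) (p := p) (b := P.bb) (M := (e + 2) * p)
    P.HI_IZ hlow hup
    (P.IZ_le_Ann_GG h0 h0' h1 h1') hg hgG hnz (fun j u hj hu hu' => hA j hj u hu hu') hB hj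
  have hG := GG_mem_DD (Z := Z) P hp1 hn hφ ht
  have hbb : r ≤ P.bb := by
    have : ∑ i : Fin r, 1 ≤ ∑ i, P.d i := Finset.sum_le_sum fun i _ => P.hd i
    rw [Pen.bb]
    simpa using this
  have hcount := counting hG hp1 (by
    have : 2 ≤ (e + 2) * p := by nlinarith
    omega) key
  refine final_arith hcount ?_ hC
  have hfin := finiteDimensional_Mod hφ
  obtain ⟨hf1, hf2⟩ := finrank_Mod_frob p (L := Z) φ hfin
  have hsl := slots hp1 Finset.univ (fun i => P.fZ Z i) hf1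
    (fun i _ => P.fZ_pow_mem h0 h0' h1 h1' i)
  rw [Finset.card_univ, Fintype.card_fin] at hsl
  have h2 := hsl.trans hf2
  have h3 : p ^ n = p ^ r * p ^ 2 := by
    rw [← pow_add]
    exact congrArg _ hn
  have h4 : p ^ r * finrank Z (Mod (P.GG Z p φ)) ≤ p ^ r * (p ^ 2 * finrank κ (Mod φ)) := by
    rw [← mul_assoc, ← h3]
    exact h2
  exact Nat.le_of_mul_le_mul_left h4 (pow_pos hp1 r)

end Pool.Agent.CB27
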