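import Mathlib
import Pool.Agent.CB.MainK1

/-!
# From the algebraic core to subschemes of complete intersections
-/

set_option autoImplicit false
set_option linter.all false

noncomputable section

namespace Pool.Agent.CB27

open Module MvPolynomial Pool.Agent.CB

/-- If every nonzero functional of degree `m + 1` killed by `c` forms of degrees `d i` without common
zero generates a module of dimension at least `B`, then every subscheme of a zero-dimensional complete
intersection of type `d` in projective `c`-space failing to impose independent conditions in degree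
`m` has degree at least `B`. -/
theorem geo_of_core (K : Type) [Field K] [IsAlgClosed K] (c : ℕ) (d : ℕ → ℕ) (m B : ℕ)
    (hcore : ∀ (F : ℕ → MvPolynomial (Fin c) K) (φ : MvPolynomial (Fin c) K →ₗ[K] K),
      (∀ i, 1 ≤ i → i ≤ c → (F i).IsHomogeneous (d i)) → φ ∈ DD K c (m + 1) → φ ≠ 0 →
      (∀ i, 1 ≤ i → i ≤ c → F i ∈ Ann φ) → NZ (EL d F c) →
      B ≤ ∑ s ∈ Finset.range (m + 1 + 1), finrank K (P φ s))
    (F : ℕ → MvPolynomial (Fin (c+1)) K)
    (hF : ∀ i ∈ Finset.Icc 1 c, (F i).IsHomogeneous (d i))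
    (hfin : ∀ j : Fin (c+1), Set.Finite {x : Fin (c+1) → K |
        x j = 1 ∧ ∀ i ∈ Finset.Icc 1 c, MvPolynomial.eval x (F i) = 0})
    (J : Ideal (MvPolynomial (Fin (c+1)) K))
    (hJh : ∀ f ∈ J, ∀ n : ℕ, MvPolynomial.homogeneousComponent n f ∈ J)
    (hsat : ∀ f : MvPolynomial (Fin (c+1)) K,
        (∃ N : ℕ, ∀ i : Fin (c+1), MvPolynomial.X i ^ N * f ∈ J) → f ∈ J)
    (hFJ : ∀ i ∈ Finset.Icc 1 c, F i ∈ J)
    (h : ℕ → ℕ)
    (hh : ∀ n : ℕ, h n =
        Module.finrank K (MvPolynomial.homogeneousSubmodule (Fin (c+1)) K n) -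
        Module.finrank K
          ↥(Submodule.restrictScalars K J ⊓ MvPolynomial.homogeneousSubmodule (Fin (c+1)) K n))
    (D : ℕ) (hD : ∃ N : ℕ, ∀ n ≥ N, h n = D) (hlt : h m < D) : B ≤ D := by
  classical
  obtain ⟨a, φ, hl0, hnz, hreg, hφ, hφ0, hφJ, hφl, hsum⟩ :=
    reduction K c d F hF hfin J hJh hsat hFJ h hh D hD m hlt
  obtain ⟨j, hj⟩ : ∃ j, a j ≠ 0 := by
    by_contra hcon
    push Not at hcon
    apply hl0
    simp [lf, hcon]
  have hJA : ∀ f ∈ J, f ∈ Ann φ := by
    intro f hf
    rw [mem_Ann']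
    intro u
    exact hφJ _ (J.mul_mem_right u hf)
  refine (hcore (fun i => rho a j (F i)) (φ ∘ₗ (iot (K := K) j).toLinearMap)
    (fun i h1 h2 => rho_hom a j (hF i (Finset.mem_Icc.2 ⟨h1, h2⟩)))
    (res_DD hj hφl hφ) (res_ne hj hφl hφ0)
    (fun i h1 h2 => res_Ann hj hφl (hJA _ (hFJ i (Finset.mem_Icc.2 ⟨h1, h2⟩)))) ?_).trans
    (le_trans ?_ hsum)
  · intro x hx
    let y : Fin (c+1) → K := fun i => eval x (rho a j (X i))
    have hy : ∀ f, eval x (rho a j f) = eval y f := by
      intro f
      have : ((eval x : MvPolynomial (Fin c) K →+* K).comp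
          (rho a j : MvPolynomial (Fin (c+1)) K →+* MvPolynomial (Fin c) K)) =
          (eval y : MvPolynomial (Fin (c+1)) K →+* K) := by
        apply MvPolynomial.ringHom_ext
        · intro b
          simp [y, rho]
        · intro i
          simp [y]
      exact congrArg (fun k : MvPolynomial (Fin (c+1)) K →+* K => k f) this
    have hy0 : y = 0 := by
      apply hnz
      · intro i hi
        rw [← hy]
        rw [Finset.mem_Icc] at hi
        exact hx (d i, rho a j (F i)) (mem_EL.2 ⟨i, hi.1, hi.2, rfl⟩)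
      · rw [← hy, rho_lf a j hj, map_zero]
    funext i
    have h1 : y (j.succAbove i) = x i := by
      change eval x (rho a j (X (j.succAbove i))) = x i
      rw [rho_X_succ, eval_X]
    rw [← h1, hy0]
    rfl
  · exact Finset.sum_le_sum fun s _ => res_finrank hj hφl s

end Pool.Agent.CB27
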