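import Mathlib
import Pool.Agent.CB27.Frob
import Pool.Agent.CB27.Arith

/-!
# Reduction from characteristic zero to large characteristic
-/

set_option autoImplicit false
set_option linter.all false

noncomputable section

namespace Pool.Agent.CB27

open Module MvPolynomial Pool.Agent.CB

/-- exponents of degree `s` -/
def Mon (n s : ℕ) : Finset (Fin n →₀ ℕ) := Finset.finsuppAntidiag Finset.univ s

lemma mem_Mon {n s : ℕ} {β : Fin n →₀ ℕ} : β ∈ Mon n s ↔ Finsupp.degree β = s := by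
  rw [Mon, Finset.mem_finsuppAntidiag, Finsupp.degree_eq_sum]
  simp

lemma mem_IL_EL {K : Type*} [Field K] {N : ℕ} {d : ℕ → ℕ} {F : ℕ → MvPolynomial (Fin N) K} {n : ℕ}
    {f : MvPolynomial (Fin N) K} (hf : f ∈ IL (EL d F n)) :
    ∃ g : ℕ → MvPolynomial (Fin N) K, f = ∑ i ∈ Finset.Icc 1 n, g i * F i := by
  classical
  have h1 : IL (EL d F n) ≤ Ideal.span (Set.range fun i : Finset.Icc 1 n => F i) := by
    refine IL_le fun a ha => ?_
    obtain ⟨i, h1, h2, rfl⟩ := mem_EL.1 ha
    exact Ideal.subset_span ⟨⟨i, Finset.mem_Icc.2 ⟨h1, h2⟩⟩, rfl⟩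
  obtain ⟨c, hc⟩ := (Ideal.mem_span_range_iff_exists_fun).1 (h1 hf)
  refine ⟨fun i => if h : i ∈ Finset.Icc 1 n then c ⟨i, h⟩ else 0, ?_⟩
  rw [← hc, ← Finset.sum_coe_sort (Finset.Icc 1 n)]
  refine Finset.sum_congr rfl fun i _ => ?_
  simp only [dif_pos i.2]

lemma DD_monomial {K : Type*} [Field K] {n t : ℕ} {φ : MvPolynomial (Fin n) K →ₗ[K] K}
    (hφ : φ ∈ DD K n t) {β : Fin n →₀ ℕ} (h : β ∉ Mon n t) (c : K) : φ (monomial β c) = 0 :=
  hφ _ _ (isHomogeneous_monomial c rfl) fun h' => h (mem_Mon.2 h')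

lemma lin_ext_mon {K : Type*} [Field K] {n : ℕ} {φ ψ : MvPolynomial (Fin n) K →ₗ[K] K}
    (h : ∀ β, φ (monomial β 1) = ψ (monomial β 1)) : φ = ψ := by
  apply LinearMap.ext
  intro g
  have hg := span_monomials g
  induction hg using Submodule.span_induction with
  | mem x hx =>
    obtain ⟨β, rfl⟩ := hx
    exact h β
  | zero => rw [map_zero, map_zero]
  | add a b _ _ ha hb => rw [map_add, map_add, ha, hb]
  | smul c a _ ha => rw [map_smul, map_smul, ha]

section Spec

variable {K : Type} [Field K] {κ : Type} [Field κ] {A : Subalgebra ℤ K} (h : A →+* κ) {n : ℕ}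

/-- polynomials with coefficients in `A` lift -/
lemma exists_lift {f : MvPolynomial (Fin n) K} (hf : ∀ x ∈ f.coeffs, x ∈ A) :
    ∃ g : MvPolynomial (Fin n) A, map (A.val : A →+* K) g = f := by
  have : f ∈ Set.range (map (A.val : A →+* K)) := by
    rw [mem_range_map_iff_coeffs_subset]
    intro x hx
    exact ⟨⟨x, hf x hx⟩, rfl⟩
  exact this

lemma val_inj : Function.Injective (map (σ := Fin n) (A.val : A →+* K)) :=
  map_injective _ Subtype.val_injective

lemma map_mon_one {R S : Type*} [CommRing R] [CommRing S] (f : R →+* S) (β : Fin n →₀ ℕ) :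
    map f (monomial β (1 : R)) = monomial β (1 : S) := by
  rw [map_monomial, map_one f]

variable (A) in
open Classical in
/-- functional over `A` -/
def phiA (φ : MvPolynomial (Fin n) K →ₗ[K] K) : MvPolynomial (Fin n) A →ₗ[A] A :=
  (MvPolynomial.basisMonomials (Fin n) A).constr A fun β =>
    if hβ : φ (monomial β 1) ∈ A then ⟨φ (monomial β 1), hβ⟩ else 0

lemma phiA_val {φ : MvPolynomial (Fin n) K →ₗ[K] K} (hφ : ∀ β, φ (monomial β 1) ∈ A)
    (g : MvPolynomial (Fin n) A) : ((phiA A φ g : A) : K) = φ (map (A.val : A →+* K) g) := by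
  induction g using MvPolynomial.induction_on' with
  | monomial β c =>
    have h1 : (monomial β c : MvPolynomial (Fin n) A) = c • (basisMonomials (Fin n) A) β := by
      rw [coe_basisMonomials, smul_monomial, smul_eq_mul, mul_one]
    have h2 : (monomial β (c : K) : MvPolynomial (Fin n) K) = (c : K) • monomial β 1 := by
      rw [smul_monomial, smul_eq_mul, mul_one]
    rw [map_monomial, h1, map_smul, phiA, Basis.constr_basis, dif_pos (hφ β)]
    change (c : K) * φ (monomial β 1) = φ (monomial β (c : K))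
    rw [h2, map_smul, smul_eq_mul]
  | add a b ha hb =>
    rw [map_add, map_add, map_add, ← ha, ← hb]
    rfl

/-- specialised functional -/
def phiS (φ : MvPolynomial (Fin n) K →ₗ[K] K) : MvPolynomial (Fin n) κ →ₗ[κ] κ :=
  (MvPolynomial.basisMonomials (Fin n) κ).constr κ fun β => h (phiA A φ (monomial β 1))

lemma phiS_map (φ : MvPolynomial (Fin n) K →ₗ[K] K) (g : MvPolynomial (Fin n) A) :
    phiS h φ (map h g) = h (phiA A φ g) := by
  induction g using MvPolynomial.induction_on' with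
  | monomial β c =>
    have h1 : (monomial β c : MvPolynomial (Fin n) A) = c • monomial β 1 := by
      rw [smul_monomial, smul_eq_mul, mul_one]
    have h2 : (monomial β (h c) : MvPolynomial (Fin n) κ) =
        (h c) • (basisMonomials (Fin n) κ) β := by
      rw [coe_basisMonomials, smul_monomial, smul_eq_mul, mul_one]
    rw [map_monomial, h2, map_smul, phiS, Basis.constr_basis]
    conv_rhs => rw [h1, map_smul, smul_eq_mul, map_mul]
    rfl
  | add a b ha hb => rw [map_add, map_add, map_add, map_add, ha, hb]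

lemma phiS_monomial (φ : MvPolynomial (Fin n) K →ₗ[K] K) (β : Fin n →₀ ℕ) :
    phiS h φ (monomial β 1) = h (phiA A φ (monomial β 1)) := by
  rw [← phiS_map, map_mon_one]

lemma phiS_DD {φ : MvPolynomial (Fin n) K →ₗ[K] K} (hφ : ∀ β, φ (monomial β 1) ∈ A) {t : ℕ}
    (hD : φ ∈ DD K n t) : phiS h φ ∈ DD κ n t := by
  intro f m hf hm
  rw [f.as_sum, map_sum]
  refine Finset.sum_eq_zero fun β hβ => ?_
  have h1 : (monomial β (coeff β f) : MvPolynomial (Fin n) κ) = coeff β f • monomial β 1 := by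
    rw [smul_monomial, smul_eq_mul, mul_one]
  rw [h1, map_smul, phiS_monomial]
  have h2 : (phiA A φ (monomial β (1 : A)) : A) = 0 := by
    apply Subtype.ext
    rw [phiA_val hφ, map_mon_one]
    refine DD_monomial hD ?_ 1
    rw [mem_Mon, Finsupp.degree_eq_weight_one]
    intro h3
    exact hm ((hf (mem_support_iff.1 hβ)).symm.trans h3)
  rw [h2, map_zero, smul_zero]

lemma phiS_Ann {φ : MvPolynomial (Fin n) K →ₗ[K] K} (hφ : ∀ β, φ (monomial β 1) ∈ A)
    {f : MvPolynomial (Fin n) A} (hf : map (A.val : A →+* K) f ∈ Ann φ) :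
    map h f ∈ Ann (phiS h φ) := by
  rw [mem_Ann]
  refine lin_ext_mon fun β => ?_
  rw [act_apply, LinearMap.zero_apply]
  have h1 : map h f * monomial β 1 = map h (f * monomial β 1) := by
    rw [map_mul, map_mon_one]
  rw [h1, phiS_map]
  have h2 : (phiA A φ (f * monomial β (1 : A)) : A) = 0 := by
    apply Subtype.ext
    rw [phiA_val hφ, map_mul]
    exact mem_Ann'.1 hf _
  rw [h2, map_zero]

/-- semicontinuity of the rank -/
lemma phiS_rank {φ : MvPolynomial (Fin n) K →ₗ[K] K} (hφ : ∀ β, φ (monomial β 1) ∈ A) {t s : ℕ}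
    (hD : φ ∈ DD K n t) {R : ℕ} (a : (Fin n →₀ ℕ) → Fin R → K) (b : Fin R → (Fin n →₀ ℕ) → K)
    (ha : ∀ α ∈ Mon n s, ∀ r, a α r ∈ A) (hb : ∀ β ∈ Mon n (t - s), ∀ r, b r β ∈ A) (hs : s ≤ t)
    (hab : ∀ α ∈ Mon n s, ∀ β ∈ Mon n (t - s), φ (monomial (α + β) 1) = ∑ r, a α r * b r β) :
    finrank κ (P (phiS h φ) s) ≤ R := by
  classical
  let ψ : Fin R → (MvPolynomial (Fin n) κ →ₗ[κ] κ) := fun r =>
    (MvPolynomial.basisMonomials (Fin n) κ).constr κ fun β =>
      if hβ : β ∈ Mon n (t - s) then h ⟨b r β, hb β hβ r⟩ else 0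
  have hψ : ∀ r β, ψ r (monomial β 1) =
      if hβ : β ∈ Mon n (t - s) then h ⟨b r β, hb β hβ r⟩ else 0 := by
    intro r β
    have : (monomial β 1 : MvPolynomial (Fin n) κ) = (basisMonomials (Fin n) κ) β := by
      rw [coe_basisMonomials]
    rw [this]
    exact Basis.constr_basis _ _ _ _
  have hle : P (phiS h φ) s ≤ Submodule.span κ (Set.range ψ) := by
    rintro _ ⟨g, hg, rfl⟩
    have hg' : g.IsHomogeneous s := hg
    rw [g.as_sum, map_sum]
    refine Submodule.sum_mem _ fun α hα => ?_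
    have hαs : α ∈ Mon n s := by
      rw [mem_Mon, Finsupp.degree_eq_weight_one]
      exact hg' (mem_support_iff.1 hα)
    have h1 : (monomial α (coeff α g) : MvPolynomial (Fin n) κ) = coeff α g • monomial α 1 := by
      rw [smul_monomial, smul_eq_mul, mul_one]
    rw [h1, map_smul]
    refine Submodule.smul_mem _ _ ?_
    have h2 : actφ (phiS h φ) (monomial α 1) = ∑ r, h ⟨a α r, ha α hαs r⟩ • ψ r := by
      refine lin_ext_mon fun β => ?_
      rw [actφ_apply, act_apply, monomial_mul, mul_one, phiS_monomial, LinearMap.sum_apply]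
      simp only [LinearMap.smul_apply, hψ, smul_eq_mul]
      by_cases hβ : β ∈ Mon n (t - s)
      · simp only [dif_pos hβ]
        simp only [← map_mul, ← map_sum]
        congr 1
        apply Subtype.ext
        rw [phiA_val hφ, map_mon_one, hab α hαs β hβ]
        simp
      · simp only [dif_neg hβ, mul_zero, Finset.sum_const_zero]
        have h3 : (phiA A φ (monomial (α + β) (1 : A)) : A) = 0 := by
          apply Subtype.ext
          rw [phiA_val hφ, map_mon_one]
          refine DD_monomial hD ?_ 1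
          rw [mem_Mon] at hαs hβ ⊢
          rw [map_add, hαs]
          omega
        rw [h3, map_zero]
    rw [h2]
    exact Submodule.sum_mem _ fun r _ => Submodule.smul_mem _ _ (Submodule.subset_span ⟨r, rfl⟩)
  haveI : FiniteDimensional κ (Submodule.span κ (Set.range ψ)) :=
    FiniteDimensional.span_of_finite κ (Set.finite_range ψ)
  refine (Submodule.finrank_mono hle).trans ((finrank_range_le_card ψ).trans ?_)
  rw [Fintype.card_fin]

end Spec

/-- rank factorisation of the catalecticant -/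
lemma exists_factor {K : Type*} [Field K] {n : ℕ} (φ : MvPolynomial (Fin n) K →ₗ[K] K) (s : ℕ) :
    ∃ (a : (Fin n →₀ ℕ) → Fin (finrank K (P φ s)) → K)
      (b : Fin (finrank K (P φ s)) → (Fin n →₀ ℕ) → K),
      ∀ α ∈ Mon n s, ∀ β, φ (monomial (α + β) 1) = ∑ r, a α r * b r β := by
  classical
  haveI : Module.Free K (P φ s) :=
    @Module.Free.of_divisionRing K (P φ s) _ (Submodule.addCommGroup _) _
  let bas := Module.finBasis K (P φ s)
  have hmem : ∀ α ∈ Mon n s, act (monomial α (1 : K)) φ ∈ P φ s := fun α hα =>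
    ⟨_, isHomogeneous_monomial _ (mem_Mon.1 hα), rfl⟩
  refine ⟨fun α r => if h : α ∈ Mon n s then bas.repr ⟨_, hmem α h⟩ r else 0,
    fun r β => (bas r : MvPolynomial (Fin n) K →ₗ[K] K) (monomial β 1), ?_⟩
  intro α hα β
  simp only [dif_pos hα]
  have h2' : ((∑ i, (bas.repr ⟨_, hmem α hα⟩) i • bas i : P φ s) :
      MvPolynomial (Fin n) K →ₗ[K] K) = act (monomial α (1 : K)) φ :=
    congrArg Subtype.val (bas.sum_repr ⟨_, hmem α hα⟩)
  have h3 : φ (monomial (α + β) 1) = act (monomial α (1 : K)) φ (monomial β 1) := by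
    rw [act_apply, monomial_mul, mul_one]
  rw [h3]
  have h4 := LinearMap.congr_fun h2' (monomial β 1)
  rw [← h4, Submodule.coe_sum, LinearMap.sum_apply]
  refine Finset.sum_congr rfl fun j _ => ?_
  rw [Submodule.coe_smul, LinearMap.smul_apply, smul_eq_mul]

/-- **Reduction to large characteristic.** -/
theorem red0 {n t B C : ℕ} {d : ℕ → ℕ}
    (H : ∀ p : ℕ, p.Prime → C < p → ∀ (κ : Type) [Field κ] [IsAlgClosed κ] [CharP κ p]
      (F : ℕ → MvPolynomial (Fin n) κ) (φ : MvPolynomial (Fin n) κ →ₗ[κ] κ),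
      (∀ i, 1 ≤ i → i ≤ n → (F i).IsHomogeneous (d i)) → φ ∈ DD κ n t → φ ≠ 0 →
      (∀ i, 1 ≤ i → i ≤ n → F i ∈ Ann φ) → NZ (EL d F n) →
      B ≤ ∑ s ∈ Finset.range (t + 1), finrank κ (P φ s))
    (K : Type) [Field K] [IsAlgClosed K] [CharZero K]
    (F : ℕ → MvPolynomial (Fin n) K) (φ : MvPolynomial (Fin n) K →ₗ[K] K)
    (hF : ∀ i, 1 ≤ i → i ≤ n → (F i).IsHomogeneous (d i)) (hφ : φ ∈ DD K n t) (hφ0 : φ ≠ 0)
    (hFφ : ∀ i, 1 ≤ i → i ≤ n → F i ∈ Ann φ) (hnz : NZ (EL d F n)) :
    B ≤ ∑ s ∈ Finset.range (t + 1), finrank K (P φ s) := by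
  classical
  -- powers of the variables
  have hpow : ∀ j : Fin n, ∃ m : ℕ, ∃ g : ℕ → MvPolynomial (Fin n) K,
      (X j : MvPolynomial (Fin n) K) ^ m = ∑ i ∈ Finset.Icc 1 n, g i * F i := by
    intro j
    obtain ⟨m, hm⟩ := exists_pow_mem (I := IL (EL d F n))
      (fun x hx => hnz x fun a ha => hx _ (mem_IL ha)) j
    obtain ⟨g, hg⟩ := mem_IL_EL hm
    exact ⟨m, g, hg⟩
  choose m g hg using hpow
  have hfac := fun s => exists_factor φ s
  choose a b hab using hfac
  -- the finite set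
  let T : Finset K :=
    ((Finset.Icc 1 n).biUnion fun i => (F i).coeffs) ∪
    (Finset.univ.biUnion fun j : Fin n => (Finset.Icc 1 n).biUnion fun i => (g j i).coeffs) ∪
    ((Mon n t).image fun γ => φ (monomial γ 1)) ∪
    ((Finset.range (t + 1)).biUnion fun s => (Mon n s).biUnion fun α =>
      Finset.univ.image fun r => a s α r) ∪
    ((Finset.range (t + 1)).biUnion fun s => (Mon n (t - s)).biUnion fun β =>
      Finset.univ.image fun r => b s r β)
  obtain ⟨A, p, κ, _, _, _, h, hp, hCp, hTA, hTne⟩ := exists_specialisation T C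
  have hT1 : ∀ i, 1 ≤ i → i ≤ n → ∀ x ∈ (F i).coeffs, x ∈ A := by
    intro i h1 h2 x hx
    apply hTA
    simp only [T, Finset.mem_union, Finset.mem_biUnion, Finset.mem_Icc]
    exact Or.inl (Or.inl (Or.inl (Or.inl ⟨i, ⟨h1, h2⟩, hx⟩)))
  have hT2 : ∀ j i, 1 ≤ i → i ≤ n → ∀ x ∈ (g j i).coeffs, x ∈ A := by
    intro j i h1 h2 x hx
    apply hTA
    simp only [T, Finset.mem_union, Finset.mem_biUnion, Finset.mem_Icc]
    exact Or.inl (Or.inl (Or.inl (Or.inr ⟨j, Finset.mem_univ _, i, ⟨h1, h2⟩, hx⟩)))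
  have hT3' : ∀ γ ∈ Mon n t, φ (monomial γ 1) ∈ T := by
    intro γ hγ
    simp only [T, Finset.mem_union]
    exact Or.inl (Or.inl (Or.inr (Finset.mem_image_of_mem _ hγ)))
  have hT3 : ∀ γ, φ (monomial γ 1) ∈ A := by
    intro γ
    by_cases hγ : γ ∈ Mon n t
    · exact hTA _ (hT3' γ hγ)
    · rw [DD_monomial hφ hγ]
      exact A.zero_mem
  have hT4 : ∀ s ≤ t, ∀ α ∈ Mon n s, ∀ r, a s α r ∈ A := by
    intro s hs α hα r
    apply hTA
    simp only [T, Finset.mem_union, Finset.mem_biUnion]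
    exact Or.inl (Or.inr ⟨s, Finset.mem_range.2 (by omega), α, hα,
      Finset.mem_image_of_mem _ (Finset.mem_univ r)⟩)
  have hT5 : ∀ s ≤ t, ∀ β ∈ Mon n (t - s), ∀ r, b s r β ∈ A := by
    intro s hs β hβ r
    apply hTA
    simp only [T, Finset.mem_union, Finset.mem_biUnion]
    exact Or.inr ⟨s, Finset.mem_range.2 (by omega), β, hβ,
      Finset.mem_image_of_mem _ (Finset.mem_univ r)⟩
  -- lifts
  have hL1 : ∀ i, ∃ f : MvPolynomial (Fin n) A, 1 ≤ i → i ≤ n → map (A.val : A →+* K) f = F i := by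
    intro i
    by_cases hi : 1 ≤ i ∧ i ≤ n
    · obtain ⟨f, hf⟩ := exists_lift (hT1 i hi.1 hi.2)
      exact ⟨f, fun _ _ => hf⟩
    · exact ⟨0, fun h1 h2 => absurd ⟨h1, h2⟩ hi⟩
  choose F' hF' using hL1
  have hL2 : ∀ j i, ∃ f : MvPolynomial (Fin n) A, 1 ≤ i → i ≤ n →
      map (A.val : A →+* K) f = g j i := by
    intro j i
    by_cases hi : 1 ≤ i ∧ i ≤ n
    · obtain ⟨f, hf⟩ := exists_lift (hT2 j i hi.1 hi.2)
      exact ⟨f, fun _ _ => hf⟩
    · exact ⟨0, fun h1 h2 => absurd ⟨h1, h2⟩ hi⟩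
  choose g' hg' using hL2
  have hX : ∀ j : Fin n, (X j : MvPolynomial (Fin n) A) ^ (m j) =
      ∑ i ∈ Finset.Icc 1 n, g' j i * F' i := by
    intro j
    apply val_inj
    rw [map_pow, map_X, hg j, map_sum]
    refine Finset.sum_congr rfl fun i hi => ?_
    rw [Finset.mem_Icc] at hi
    rw [map_mul, hg' j i hi.1 hi.2, hF' i hi.1 hi.2]
  have key := H p hp hCp κ (fun i => map h (F' i)) (phiS h φ) ?_ (phiS_DD h hT3 hφ) ?_ ?_ ?_
  · refine key.trans (Finset.sum_le_sum fun s hs => ?_)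
    rw [Finset.mem_range] at hs
    exact phiS_rank h hT3 hφ (a s) (b s) (hT4 s (by omega)) (hT5 s (by omega)) (by omega)
      fun α hα β _ => hab s α hα β
  · intro i h1 h2
    have h3 : (F' i).IsHomogeneous (d i) := by
      have h4 := hF i h1 h2
      rw [← hF' i h1 h2] at h4
      have h5 : Function.Injective (A.val : A →+* K) := Subtype.val_injective
      exact IsHomogeneous.of_map h5 h4
    exact h3.map h
  · obtain ⟨γ, hγ⟩ := exists_monomial_ne hφ0
    have hγt : γ ∈ Mon n t := by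
      by_contra hcon
      exact hγ (DD_monomial hφ hcon 1)
    intro h0
    have h1 := phiS_monomial h φ γ
    rw [h0, LinearMap.zero_apply] at h1
    refine hTne _ (hT3' γ hγt) hγ (hT3 γ) ?_
    rw [h1]
    congr 1
    apply Subtype.ext
    rw [phiA_val hT3, map_mon_one]
  · intro i h1 h2
    refine phiS_Ann h hT3 ?_
    rw [hF' i h1 h2]
    exact hFφ i h1 h2
  · intro x hx
    funext j
    have h1 := congrArg (fun q => eval x (map h q)) (hX j)
    simp only [map_pow, map_X, eval_X, map_sum, map_mul] at h1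
    have h2 : ∑ i ∈ Finset.Icc 1 n, (eval x) (map h (g' j i)) * (eval x) (map h (F' i)) = 0 := by
      refine Finset.sum_eq_zero fun i hi => ?_
      rw [Finset.mem_Icc] at hi
      have h3 : eval x (map h (F' i)) = 0 := hx (d i, map h (F' i)) (mem_EL.2 ⟨i, hi.1, hi.2, rfl⟩)
      rw [h3, mul_zero]
    rw [h2] at h1
    exact pow_eq_zero_iff (n := m j) (by
      intro h3
      rw [h3, pow_zero] at h1
      exact one_ne_zero h1) |>.1 h1

end Pool.Agent.CB27
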