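import Mathlib
import Pool.Agent.CB27.CoreP
import Pool.Agent.CB27.Red0
import Pool.Agent.CB27.GeoCore

/-!
# From the core in large positive characteristic to the geometric statement in characteristic `0`
-/

set_option autoImplicit false
set_option linter.all false

noncomputable section

namespace Pool.Agent.CB27

open Module MvPolynomial Pool.Agent.CB Pool.Agent.K1Z

/-- the constant: in characteristic larger than this the argument works -/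
def Cst (N S B e : ℕ) : ℕ := 3 * N + (N * S + N * B) * (e + 2)

/-- the core statement in characteristic `p` -/
def CoreP : Prop :=
  ∀ (p : ℕ), p.Prime → ∀ (κ : Type) [Field κ] [IsAlgClosed κ] [CharP κ p]
    (r e t : ℕ) (d : ℕ → ℕ) (F : ℕ → MvPolynomial (Fin (r + 2)) κ)
    (φ : MvPolynomial (Fin (r + 2)) κ →ₗ[κ] κ),
    (∀ i, 1 ≤ i → i ≤ r + 2 → 1 ≤ d i) →
    (∀ i j, 1 ≤ i → i ≤ j → j ≤ r + 2 → d i ≤ d j) →
    (∀ i, 1 ≤ i → i ≤ r + 2 → (F i).IsHomogeneous (d i)) →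
    φ ∈ DD κ (r + 2) t → t = e + ∑ i : Fin r, (d (i + 3) - 1) → φ ≠ 0 →
    (∀ i, 1 ≤ i → i ≤ r + 2 → F i ∈ Ann φ) → NZ (EL d F (r + 2)) →
    Cst (∏ i : Fin r, d (i + 3)) (∑ i : Fin r, (d (i + 3) - 1)) (∑ i : Fin r, d (i + 3)) e < p →
    (∏ i : Fin r, d (i + 3)) * (e + 1) ≤ finrank κ (Mod φ)

lemma prod_Icc3 (r : ℕ) (f : ℕ → ℕ) : ∏ i ∈ Finset.Icc 3 (r + 2), f i = ∏ i : Fin r, f (i + 3) := by
  rw [Fin.prod_univ_eq_prod_range (fun i => f (i + 3)) r]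
  refine (Finset.prod_bij (fun i _ => i + 3) ?_ ?_ ?_ ?_).symm
  · intro a ha
    rw [Finset.mem_range] at ha
    rw [Finset.mem_Icc]
    omega
  · intro a _ b _ h
    omega
  · intro b hb
    rw [Finset.mem_Icc] at hb
    exact ⟨b - 3, by rw [Finset.mem_range]; omega, by omega⟩
  · intro a _
    rfl

lemma sum_Icc3 (r : ℕ) (f : ℕ → ℕ) : ∑ i ∈ Finset.Icc 3 (r + 2), f i = ∑ i : Fin r, f (i + 3) := by
  rw [Fin.sum_univ_eq_sum_range (fun i => f (i + 3)) r]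
  refine (Finset.sum_bij (fun i _ => i + 3) ?_ ?_ ?_ ?_).symm
  · intro a ha
    rw [Finset.mem_range] at ha
    rw [Finset.mem_Icc]
    omega
  · intro a _ b _ h
    omega
  · intro b hb
    rw [Finset.mem_Icc] at hb
    exact ⟨b - 3, by rw [Finset.mem_range]; omega, by omega⟩
  · intro a _
    rfl

/-- **The geometric statement in characteristic zero.** -/
theorem final (hcore : CoreP) (K : Type) [Field K] [IsAlgClosed K] [CharZero K] (c : ℕ) (d : ℕ → ℕ)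
    (F : ℕ → MvPolynomial (Fin (c+1)) K) (hc : 2 ≤ c)
    (hd1 : ∀ i ∈ Finset.Icc 1 c, 1 ≤ d i)
    (hmono : ∀ i j : ℕ, 1 ≤ i → i ≤ j → j ≤ c → d i ≤ d j)
    (hF : ∀ i ∈ Finset.Icc 1 c, (F i).IsHomogeneous (d i))
    (hfin : ∀ j : Fin (c+1), Set.Finite {x : Fin (c+1) → K |
        x j = 1 ∧ ∀ i ∈ Finset.Icc 1 c, MvPolynomial.eval x (F i) = 0})
    (J : Ideal (MvPolynomial (Fin (c+1)) K))
    (hJh : ∀ f ∈ J, ∀ n : ℕ, MvPolynomial.homogeneousComponent n f ∈ J)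
    (hsat : ∀ f : MvPolynomial (Fin (c+1)) K,
        (∃ N : ℕ, ∀ i : Fin (c+1), MvPolynomial.X i ^ N * f ∈ J) → f ∈ J)
    (hFJ : ∀ i ∈ Finset.Icc 1 c, F i ∈ J)
    (h : ℕ → ℕ)
    (hh : ∀ n : ℕ, h n =
        Module.finrank K (MvPolynomial.homogeneousSubmodule (Fin (c+1)) K n) -
        Module.finrank K
          ↥(Submodule.restrictScalars K J ⊓ MvPolynomial.homogeneousSubmodule (Fin (c+1)) K n))
    (D : ℕ) (hD : ∃ N : ℕ, ∀ n ≥ N, h n = D) (m : ℕ)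
    (hm : (∑ i ∈ Finset.Icc 3 c, (d i - 1)) ≤ m + 1) (hlt : h m < D) :
    (m + 1 - (∑ i ∈ Finset.Icc 3 c, (d i - 1)) + 1) * ∏ i ∈ Finset.Icc 3 c, d i ≤ D := by
  obtain ⟨r, rfl⟩ : ∃ r, c = r + 2 := ⟨c - 2, by omega⟩
  set e := m + 1 - (∑ i ∈ Finset.Icc 3 (r + 2), (d i - 1)) with he
  refine geo_of_core K (r + 2) d m _ ?_ F hF hfin J hJh hsat hFJ h hh D hD hlt
  intro F' φ hF' hφ hφ0 hFφ hnz
  refine red0 (C := Cst (∏ i : Fin r, d (i + 3)) (∑ i : Fin r, (d (i + 3) - 1))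
    (∑ i : Fin r, d (i + 3)) e) ?_ K F' φ hF' hφ hφ0 hFφ hnz
  intro p hp hC κ _ _ _ F'' φ' hF'' hφ' hφ0' hFφ' hnz'
  rw [← finrank_Mod hφ', mul_comm, prod_Icc3]
  refine hcore p hp κ r e (m + 1) d F'' φ' ?_ hmono hF'' hφ' ?_ hφ0' hFφ' hnz' hC
  · intro i h1 h2
    exact hd1 i (Finset.mem_Icc.2 ⟨h1, h2⟩)
  · rw [sum_Icc3 r fun i => d i - 1] at he hm
    omega

/-- **The geometric statement in characteristic zero or large.** -/
theorem final' (hcore : CoreP) (K : Type) [Field K] [IsAlgClosed K] (c : ℕ) (d : ℕ → ℕ)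
    (F : ℕ → MvPolynomial (Fin (c+1)) K) (hc : 2 ≤ c)
    (hd1 : ∀ i ∈ Finset.Icc 1 c, 1 ≤ d i)
    (hmono : ∀ i j : ℕ, 1 ≤ i → i ≤ j → j ≤ c → d i ≤ d j)
    (hF : ∀ i ∈ Finset.Icc 1 c, (F i).IsHomogeneous (d i))
    (hfin : ∀ j : Fin (c+1), Set.Finite {x : Fin (c+1) → K |
        x j = 1 ∧ ∀ i ∈ Finset.Icc 1 c, MvPolynomial.eval x (F i) = 0})
    (J : Ideal (MvPolynomial (Fin (c+1)) K))
    (hJh : ∀ f ∈ J, ∀ n : ℕ, MvPolynomial.homogeneousComponent n f ∈ J)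
    (hsat : ∀ f : MvPolynomial (Fin (c+1)) K,
        (∃ N : ℕ, ∀ i : Fin (c+1), MvPolynomial.X i ^ N * f ∈ J) → f ∈ J)
    (hFJ : ∀ i ∈ Finset.Icc 1 c, F i ∈ J)
    (h : ℕ → ℕ)
    (hh : ∀ n : ℕ, h n =
        Module.finrank K (MvPolynomial.homogeneousSubmodule (Fin (c+1)) K n) -
        Module.finrank K
          ↥(Submodule.restrictScalars K J ⊓ MvPolynomial.homogeneousSubmodule (Fin (c+1)) K n))
    (D : ℕ) (hD : ∃ N : ℕ, ∀ n ≥ N, h n = D) (m : ℕ)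
    (hm : (∑ i ∈ Finset.Icc 3 c, (d i - 1)) ≤ m + 1)
    (hchar : ringChar K = 0 ∨
      3 * (∏ i ∈ Finset.Icc 3 c, d i) +
        ((∏ i ∈ Finset.Icc 3 c, d i) * (∑ i ∈ Finset.Icc 3 c, (d i - 1)) +
          (∏ i ∈ Finset.Icc 3 c, d i) * (∑ i ∈ Finset.Icc 3 c, d i)) *
          (m + 1 - (∑ i ∈ Finset.Icc 3 c, (d i - 1)) + 2) < ringChar K)
    (hlt : h m < D) :
    (m + 1 - (∑ i ∈ Finset.Icc 3 c, (d i - 1)) + 1) * ∏ i ∈ Finset.Icc 3 c, d i ≤ D := by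
  rcases hchar with h0 | hp
  · haveI : CharZero K := (CharP.ringChar_zero_iff_CharZero K).1 h0
    exact final hcore K c d F hc hd1 hmono hF hfin J hJh hsat hFJ h hh D hD m hm hlt
  · obtain ⟨r, rfl⟩ : ∃ r, c = r + 2 := ⟨c - 2, by omega⟩
    set e := m + 1 - (∑ i ∈ Finset.Icc 3 (r + 2), (d i - 1)) with he
    refine geo_of_core K (r + 2) d m _ ?_ F hF hfin J hJh hsat hFJ h hh D hD hlt
    intro F' φ hF' hφ hφ0 hFφ hnz
    haveI hch : CharP K (ringChar K) := ringChar.charP K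
    have hprime : (ringChar K).Prime := by
      rcases CharP.char_is_prime_or_zero K (ringChar K) with h | h
      · exact h
      · omega
    rw [← finrank_Mod hφ, mul_comm, prod_Icc3]
    refine hcore (ringChar K) hprime K r e (m + 1) d F' φ ?_ hmono hF' hφ ?_ hφ0 hFφ hnz ?_
    · intro i h1 h2
      exact hd1 i (Finset.mem_Icc.2 ⟨h1, h2⟩)
    · rw [sum_Icc3 r fun i => d i - 1] at he hm
      omega
    · rw [prod_Icc3, sum_Icc3 r fun i => d i - 1, sum_Icc3 r fun i => d i] at hp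
      exact hp

end Pool.Agent.CB27
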