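import Mathlib
import Pool.Agent.CB27.Frob
import Pool.Agent.K1Z.Defs

/-!
# The Frobenius functional on `κ[x, parameters]`: integration by parts
-/

set_option autoImplicit false
set_option linter.all false

noncomputable section

namespace Pool.Agent.CB27

open Module MvPolynomial Pool.Agent.CB Pool.Agent.K1Z

variable {κ : Type*} [Field κ] {n r : ℕ}

/-- `κ[x, parameters]` is additively generated by the products of a polynomial in `x` and one in the
parameters -/
lemma CC_closure (c : CC κ n r) : c ∈ AddSubmonoid.closure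
    {c : CC κ n r | ∃ (u : MvPolynomial (Fin n) κ) (v : Lam κ r),
      c = rename Sum.inl u * rename Sum.inr v} := by
  induction c using MvPolynomial.induction_on with
  | C a => exact AddSubmonoid.subset_closure ⟨C a, 1, by rw [rename_C, map_one, mul_one]⟩
  | add a b ha hb => exact AddSubmonoid.add_mem _ ha hb
  | mul_X c i hc =>
    induction hc using AddSubmonoid.closure_induction with
    | mem c hc =>
      obtain ⟨u, v, rfl⟩ := hc
      rcases i with i | q
      · refine AddSubmonoid.subset_closure ⟨u * X i, v, ?_⟩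
        rw [map_mul, rename_X]
        ring
      · refine AddSubmonoid.subset_closure ⟨u, v * X q, ?_⟩
        rw [map_mul (rename Sum.inr), rename_X]
        ring
    | zero => rw [zero_mul]; exact AddSubmonoid.zero_mem _
    | add a b _ _ ha hb => rw [add_mul]; exact AddSubmonoid.add_mem _ ha hb

/-- additive maps agreeing on products are equal -/
lemma CC_ext {M : Type*} [AddCommMonoid M] {f g : CC κ n r →+ M}
    (h : ∀ u v, f (rename Sum.inl u * rename Sum.inr v) = g (rename Sum.inl u * rename Sum.inr v))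
    (c : CC κ n r) : f c = g c := by
  induction CC_closure c using AddSubmonoid.closure_induction with
  | mem c hc =>
    obtain ⟨u, v, rfl⟩ := hc
    exact h u v
  | zero => rw [map_zero, map_zero]
  | add a b _ _ ha hb => rw [map_add, map_add, ha, hb]

/-- the Frobenius functional on `κ[x, parameters]` -/
def PhiC (p : ℕ) (φ : MvPolynomial (Fin n) κ →ₗ[κ] κ) : CC κ n r →+ Lam κ r :=
  (frob p (Lam κ r) φ).toAddMonoidHom.comp
    (evL : CC κ n r →ₐ[κ] MvPolynomial (Fin n) (Lam κ r)).toRingHom.toAddMonoidHom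

lemma PhiC_apply (p : ℕ) (φ : MvPolynomial (Fin n) κ →ₗ[κ] κ) (c : CC κ n r) :
    PhiC p φ c = frob p (Lam κ r) φ (evL c) := rfl

lemma evL_rename_inr (v : Lam κ r) : evL (rename Sum.inr v : CC κ n r) = C v := by
  induction v using MvPolynomial.induction_on with
  | C a =>
    rw [rename_C, ← algebraMap_eq, AlgHom.commutes]
    rfl
  | add a b ha hb => rw [map_add, map_add, map_add, ha, hb]
  | mul_X a q ha => rw [map_mul, map_mul, map_mul, ha, rename_X, evL, evA_inr]

lemma frob_C_mul {A : Type*} [CommRing A] [Algebra κ A] (p : ℕ)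
    (φ : MvPolynomial (Fin n) κ →ₗ[κ] κ) (a : A) (g : MvPolynomial (Fin n) A) :
    frob p A φ (C a * g) = a * frob p A φ g := by
  rw [← smul_eq_C_mul, map_smul, smul_eq_mul]

lemma PhiC_prod (p : ℕ) (φ : MvPolynomial (Fin n) κ →ₗ[κ] κ) (u : MvPolynomial (Fin n) κ)
    (v : Lam κ r) : PhiC p φ (rename Sum.inl u * rename Sum.inr v) = C (frob p κ φ u) * v := by
  rw [PhiC_apply, map_mul, evL_rename_inr, evL, evA_rename, mul_comm, frob_C_mul, mul_comm]
  congr 1
  exact frob_map p (Algebra.ofId κ (Lam κ r)) φ u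

lemma PhiC_pderiv_inl (p : ℕ) [CharP κ p] [Fact p.Prime] (φ : MvPolynomial (Fin n) κ →ₗ[κ] κ)
    (y : Fin n) (c : CC κ n r) : PhiC p φ (pderiv (Sum.inl y) c) = 0 := by
  have h := CC_ext (f := (PhiC p φ).comp (pderiv (Sum.inl y) : Derivation κ (CC κ n r)
    (CC κ n r)).toLinearMap.toAddMonoidHom) (g := 0) ?_ c
  · exact h
  · intro u v
    change PhiC p φ (pderiv (Sum.inl y) (rename Sum.inl u * rename Sum.inr v)) = 0
    have h1 : pderiv (Sum.inl y) (rename Sum.inr v : CC κ n r) = 0 := by
      refine pderiv_eq_zero_of_notMem_vars ?_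
      intro h
      obtain ⟨q, -, hq⟩ := Finset.mem_image.1 (vars_rename Sum.inr v h)
      exact Sum.inr_ne_inl hq
    have h2 : pderiv (Sum.inl y) (rename Sum.inl u : CC κ n r) = rename Sum.inl (pderiv y u) :=
      pderiv_rename Sum.inl_injective y u
    rw [pderiv_mul, h1, mul_zero, add_zero, h2, PhiC_prod, frob_pderiv p Fact.out, C_0, zero_mul]

lemma PhiC_pderiv_inr (p : ℕ) (φ : MvPolynomial (Fin n) κ →ₗ[κ] κ)
    (q : Par r) (c : CC κ n r) : PhiC p φ (pderiv (Sum.inr q) c) = pderiv q (PhiC p φ c) := by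
  have h := CC_ext (f := (PhiC p φ).comp (pderiv (Sum.inr q) : Derivation κ (CC κ n r)
    (CC κ n r)).toLinearMap.toAddMonoidHom)
    (g := (pderiv q : Derivation κ (Lam κ r) (Lam κ r)).toLinearMap.toAddMonoidHom.comp
      (PhiC p φ)) ?_ c
  · exact h
  · intro u v
    change PhiC p φ (pderiv (Sum.inr q) (rename Sum.inl u * rename Sum.inr v)) =
      pderiv q (PhiC p φ (rename Sum.inl u * rename Sum.inr v))
    have h1 : pderiv (Sum.inr q) (rename Sum.inl u : CC κ n r) = 0 := by
      refine pderiv_eq_zero_of_notMem_vars ?_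
      intro h
      obtain ⟨q, -, hq⟩ := Finset.mem_image.1 (vars_rename Sum.inl u h)
      exact Sum.inl_ne_inr hq
    have h2 : pderiv (Sum.inr q) (rename Sum.inr v : CC κ n r) = rename Sum.inr (pderiv q v) :=
      pderiv_rename Sum.inr_injective q v
    rw [pderiv_mul, h1, zero_mul, zero_add, h2, PhiC_prod, PhiC_prod, pderiv_C_mul]

variable {Z : Type*} [Field Z] [Algebra κ Z] [Algebra (Lam κ r) Z] [IsScalarTower κ (Lam κ r) Z]

lemma frob_evZ (p : ℕ) (φ : MvPolynomial (Fin n) κ →ₗ[κ] κ) (c : CC κ n r) :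
    frob p Z φ (evZ Z c) = algebraMap (Lam κ r) Z (PhiC p φ c) := by
  rw [evZ_eq_map, PhiC_apply]
  exact frob_map p (IsScalarTower.toAlgHom κ (Lam κ r) Z) φ (evL c)

end Pool.Agent.CB27
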