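import Mathlib
import Pool.Agent.CB27.Phi

/-!
# The functional `G = (∏ f_i^(p-1)) Φ` does not vanish
-/

set_option autoImplicit false
set_option linter.all false

noncomputable section

namespace Pool.Agent.CB27

open Module MvPolynomial Pool.Agent.CB Pool.Agent.K1Z

variable {κ : Type*} [Field κ] {n r : ℕ} (P : Pen κ n r)

/-- derivatives of the pencils -/
lemma pderiv_ff_ne {i l : Fin r} (h : l ≠ i) (j : Fin 3) :
    pderiv (Sum.inr (i, j)) (P.ff l) = 0 := by
  have h1 : ∀ u : MvPolynomial (Fin n) κ,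
      pderiv (Sum.inr (i, j)) (rename Sum.inl u : CC κ n r) = 0 := by
    intro u
    refine pderiv_eq_zero_of_notMem_vars ?_
    intro h
    obtain ⟨q, -, hq⟩ := Finset.mem_image.1 (vars_rename Sum.inl u h)
    exact Sum.inl_ne_inr hq
  have h2 : ∀ j', pderiv (Sum.inr (i, j)) (X (Sum.inr (l, j')) : CC κ n r) = 0 := by
    intro j'
    refine pderiv_X_of_ne ?_
    intro h'
    have := Sum.inr_injective h'
    exact h (Prod.mk.inj this).1
  simp only [Pen.ff, Pen.f0, Pen.f1, map_add, pderiv_mul, h1, h2]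
  simp

lemma pderiv_ff_0 (i : Fin r) :
    pderiv (Sum.inr (i, 0)) (P.ff i) = rename Sum.inl (P.b0 i) := by
  have h1 : ∀ u : MvPolynomial (Fin n) κ,
      pderiv (Sum.inr (i, 0)) (rename Sum.inl u : CC κ n r) = 0 := by
    intro u
    refine pderiv_eq_zero_of_notMem_vars ?_
    intro h
    obtain ⟨q, -, hq⟩ := Finset.mem_image.1 (vars_rename Sum.inl u h)
    exact Sum.inl_ne_inr hq
  have h2 : ∀ j' : Fin 3, j' ≠ 0 → pderiv (Sum.inr (i, 0)) (X (Sum.inr (i, j')) : CC κ n r) = 0 := by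
    intro j' hj
    refine pderiv_X_of_ne ?_
    intro h'
    have := Sum.inr_injective h'
    exact hj (Prod.mk.inj this).2
  simp only [Pen.ff, Pen.f0, Pen.f1, map_add, pderiv_mul, h1, pderiv_X_self,
    h2 1 (by decide), h2 2 (by decide)]
  simp

lemma pderiv_ff_1 (i : Fin r) :
    pderiv (Sum.inr (i, 1)) (P.ff i) = X (Sum.inr (i, 2)) * rename Sum.inl (P.b1 i) := by
  have h1 : ∀ u : MvPolynomial (Fin n) κ,
      pderiv (Sum.inr (i, 1)) (rename Sum.inl u : CC κ n r) = 0 := by
    intro u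
    refine pderiv_eq_zero_of_notMem_vars ?_
    intro h
    obtain ⟨q, -, hq⟩ := Finset.mem_image.1 (vars_rename Sum.inl u h)
    exact Sum.inl_ne_inr hq
  have h2 : ∀ j' : Fin 3, j' ≠ 1 → pderiv (Sum.inr (i, 1)) (X (Sum.inr (i, j')) : CC κ n r) = 0 := by
    intro j' hj
    refine pderiv_X_of_ne ?_
    intro h'
    have := Sum.inr_injective h'
    exact hj (Prod.mk.inj this).2
  simp only [Pen.ff, Pen.f0, Pen.f1, map_add, pderiv_mul, h1, pderiv_X_self,
    h2 0 (by decide), h2 2 (by decide)]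
  simp

lemma pderiv_ff_2 (i : Fin r) :
    pderiv (Sum.inr (i, 2)) (P.ff i) = P.f1 i := by
  have h1 : ∀ u : MvPolynomial (Fin n) κ,
      pderiv (Sum.inr (i, 2)) (rename Sum.inl u : CC κ n r) = 0 := by
    intro u
    refine pderiv_eq_zero_of_notMem_vars ?_
    intro h
    obtain ⟨q, -, hq⟩ := Finset.mem_image.1 (vars_rename Sum.inl u h)
    exact Sum.inl_ne_inr hq
  have h2 : ∀ j' : Fin 3, j' ≠ 2 → pderiv (Sum.inr (i, 2)) (X (Sum.inr (i, j')) : CC κ n r) = 0 := by
    intro j' hj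
    refine pderiv_X_of_ne ?_
    intro h'
    have := Sum.inr_injective h'
    exact hj (Prod.mk.inj this).2
  simp only [Pen.ff, Pen.f0, Pen.f1, map_add, pderiv_mul, h1, pderiv_X_self,
    h2 0 (by decide), h2 1 (by decide)]
  simp

variable {Z : Type*} [Field Z] [Algebra κ Z] [Algebra (Lam κ r) Z] [IsScalarTower κ (Lam κ r) Z]

lemma pderiv_prod_zero {σ ι : Type*} (q : σ) (s : Finset ι) (f : ι → MvPolynomial σ κ)
    (h : ∀ l ∈ s, pderiv q (f l) = 0) : pderiv q (∏ l ∈ s, f l) = 0 := by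
  classical
  induction s using Finset.induction_on with
  | empty => rw [Finset.prod_empty]; exact pderiv_one
  | insert a s ha ih =>
    rw [Finset.prod_insert ha, pderiv_mul, h a (Finset.mem_insert_self a s),
      ih fun l hl => h l (Finset.mem_insert_of_mem hl)]
    simp

/-- membership in the annihilator, in terms of `PhiC` -/
lemma mem_Ann_act_iff (hinj : Function.Injective (algebraMap (Lam κ r) Z)) (p : ℕ)
    (φ : MvPolynomial (Fin n) κ →ₗ[κ] κ) (h c : CC κ n r) :
    evZ Z c ∈ Ann (act (evZ Z h) (frob p Z φ)) ↔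
      ∀ γ : Fin n →₀ ℕ, PhiC p φ (h * c * rename Sum.inl (monomial γ 1)) = 0 := by
  have h1 : ∀ γ : Fin n →₀ ℕ, act (evZ Z h) (frob p Z φ) (evZ Z c * monomial γ 1) =
      algebraMap (Lam κ r) Z (PhiC p φ (h * c * rename Sum.inl (monomial γ 1))) := by
    intro γ
    rw [← frob_evZ, act_apply, map_mul (evZ Z), map_mul (evZ Z), mul_assoc]
    congr 3
    rw [evZ, evA_rename, map_monomial, map_one (algebraMap κ Z)]
  rw [mem_Ann']
  constructor
  · intro h2 γ
    have := h2 (monomial γ 1)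
    rw [h1] at this
    exact hinj (by rw [this, map_zero])
  · intro h2 u
    have hu := span_monomials u
    induction hu using Submodule.span_induction with
    | mem x hx =>
      obtain ⟨γ, rfl⟩ := hx
      rw [h1, h2, map_zero]
    | zero => rw [mul_zero, map_zero]
    | add a b _ _ ha hb => rw [mul_add, map_add, ha, hb, add_zero]
    | smul c a _ ha => rw [mul_smul_comm, map_smul, ha, smul_zero]

/-- the product of powers -/
def ffk (k : Fin r → ℕ) : CC κ n r := ∏ i, P.ff i ^ k i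

lemma evZ_ffk (k : Fin r → ℕ) : evZ Z (ffk P k) = ∏ i, P.fZ Z i ^ k i := by
  rw [ffk, map_prod]
  exact Finset.prod_congr rfl fun i _ => map_pow _ _ _

/-- if `f_i` kills `f^k Φ` with `k_i < p - 1`, then so do the derivatives of `f_i` -/
lemma deriv_mem (hinj : Function.Injective (algebraMap (Lam κ r) Z)) {p : ℕ} [CharP κ p]
    [hp : Fact p.Prime] (φ : MvPolynomial (Fin n) κ →ₗ[κ] κ) (k : Fin r → ℕ) (i : Fin r)
    (hk : k i + 1 < p) (h : P.fZ Z i ∈ Ann (act (∏ i, P.fZ Z i ^ k i) (frob p Z φ))) (j : Fin 3) :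
    evZ Z (pderiv (Sum.inr (i, j)) (P.ff i)) ∈
      Ann (act (∏ i, P.fZ Z i ^ k i) (frob p Z φ)) := by
  rw [← evZ_ffk] at h ⊢
  rw [Pen.fZ, mem_Ann_act_iff hinj] at h
  rw [mem_Ann_act_iff hinj]
  intro γ
  have h1 := congrArg (pderiv (i, j)) (h γ)
  rw [← PhiC_pderiv_inr, map_zero] at h1
  have hm : pderiv (Sum.inr (i, j)) (rename Sum.inl (monomial γ (1 : κ)) : CC κ n r) = 0 := by
    refine pderiv_eq_zero_of_notMem_vars ?_
    intro h
    obtain ⟨q, -, hq⟩ := Finset.mem_image.1 (vars_rename Sum.inl _ h)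
    exact Sum.inl_ne_inr hq
  have hfk : pderiv (Sum.inr (i, j)) (ffk P k * P.ff i) =
      ((k i + 1 : ℕ) : CC κ n r) * (ffk P k * pderiv (Sum.inr (i, j)) (P.ff i)) := by
    have h2 : ffk P k = P.ff i ^ k i * ∏ l ∈ Finset.univ.erase i, P.ff l ^ k l :=
      (Finset.mul_prod_erase Finset.univ (fun l => P.ff l ^ k l) (Finset.mem_univ i)).symm
    have h3 : pderiv (Sum.inr (i, j)) (∏ l ∈ Finset.univ.erase i, P.ff l ^ k l) = 0 := by
      refine pderiv_prod_zero _ _ _ fun l hl => ?_
      rw [pderiv_pow, pderiv_ff_ne P (Finset.ne_of_mem_erase hl)]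
      simp
    have h4 : ffk P k * P.ff i = P.ff i ^ (k i + 1) * ∏ l ∈ Finset.univ.erase i, P.ff l ^ k l := by
      rw [h2]
      ring
    rw [h4, pderiv_mul, h3, pderiv_pow, h2]
    simp only [Nat.add_sub_cancel, mul_zero, add_zero]
    push_cast
    ring
  rw [pderiv_mul, hm, mul_zero, add_zero, hfk] at h1
  have h2 : ((k i + 1 : ℕ) : CC κ n r) = C ((k i + 1 : ℕ) : κ) := by
    rw [map_natCast]
  have h3 : PhiC p φ (((k i + 1 : ℕ) : CC κ n r) * (ffk P k * pderiv (Sum.inr (i, j)) (P.ff i)) *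
      rename Sum.inl (monomial γ 1)) =
      C ((k i + 1 : ℕ) : κ) * PhiC p φ (ffk P k * pderiv (Sum.inr (i, j)) (P.ff i) *
      rename Sum.inl (monomial γ 1)) := by
    rw [mul_assoc ((k i + 1 : ℕ) : CC κ n r), h2, PhiC_apply, map_mul, ← algebraMap_eq,
      AlgHom.commutes, IsScalarTower.algebraMap_apply κ (Lam κ r) (MvPolynomial (Fin n) (Lam κ r)),
      algebraMap_eq, algebraMap_eq, frob_C_mul]
    rfl
  rw [h3] at h1
  rcases mul_eq_zero.1 h1 with h4 | h4
  · exfalso
    rw [C_eq_zero, CharP.cast_eq_zero_iff κ p] at h4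
    have := Nat.le_of_dvd (by omega) h4
    omega
  · exact h4

/-- **`G` does not vanish.** -/
theorem GG_ne_zero (hinj : Function.Injective (algebraMap (Lam κ r) Z))
    {p t e s0 : ℕ} [CharP κ p] [hp : Fact p.Prime] (hn : n = r + 2)
    {φ : MvPolynomial (Fin n) κ →ₗ[κ] κ} (hφ : φ ∈ DD κ n t) (hφ0 : φ ≠ 0)
    (ht : t = e + ∑ i, (P.d i - 1))
    (h0 : ∀ i, P.a0 i ∈ Ann φ) (h0' : ∀ i, P.b0 i ∈ Ann φ) (h1 : ∀ i, P.a1 i ∈ Ann φ)
    (h1' : ∀ i, P.b1 i ∈ Ann φ)
    (htop : ∀ (i : Fin r) (A : Ideal (MvPolynomial (Fin n) Z)),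
      map (algebraMap κ Z) (P.a0 i) ∈ A → map (algebraMap κ Z) (P.a1 i) ∈ A → P.b0Z Z i ∈ A →
      (∀ l, l ≠ i → P.fZ Z l ∈ A) → ∀ s u, s0 < s → u.IsHomogeneous s → u ∈ A)
    (hs0 : s0 + n < (e + 2) * p + P.bb) : P.GG Z p φ ≠ 0 := by
  classical
  intro hG
  have hp0 : 0 < p := hp.out.pos
  set Φ := frob p Z φ with hΦ
  have hΦ0 : Φ ≠ 0 := frob_ne_zero p hp0 hφ0
  let T := (Fintype.piFinset fun _ : Fin r => Finset.range p).filter
    (fun k => act (∏ i, P.fZ Z i ^ k i) Φ ≠ 0)
  have hT : T.Nonempty := by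
    refine ⟨fun _ => 0, Finset.mem_filter.2 ⟨?_, ?_⟩⟩
    · rw [Fintype.mem_piFinset]
      intro i
      exact Finset.mem_range.2 hp0
    · have : act (∏ i : Fin r, P.fZ Z i ^ 0) Φ = Φ := by
        apply LinearMap.ext
        intro x
        simp
      rw [this]
      exact hΦ0
  obtain ⟨k, hk, hmax⟩ := T.exists_max_image (fun k => ∑ i, k i) hT
  rw [Finset.mem_filter, Fintype.mem_piFinset] at hk
  obtain ⟨hk1, hk2⟩ := hk
  simp only [Finset.mem_range] at hk1
  obtain ⟨i, hi⟩ : ∃ i, k i + 1 < p := by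
    by_contra hcon
    push Not at hcon
    apply hk2
    have : ∀ i, k i = p - 1 := fun i => by
      have := hk1 i
      have := hcon i
      omega
    simp only [this]
    exact hG
  set A := Ann (act (∏ i, P.fZ Z i ^ k i) Φ) with hA
  have hf : ∀ l, P.fZ Z l ∈ A := by
    intro l
    by_cases hl : k l + 1 < p
    · let k' := Function.update k l (k l + 1)
      have hk'1 : ∑ i, k' i = ∑ i, k i + 1 := by
        rw [← Finset.add_sum_erase _ _ (Finset.mem_univ l),
          ← Finset.add_sum_erase _ k (Finset.mem_univ l)]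
        have : ∑ x ∈ Finset.univ.erase l, k' x = ∑ x ∈ Finset.univ.erase l, k x :=
          Finset.sum_congr rfl fun x hx => by
            simp only [k', Function.update_of_ne (Finset.ne_of_mem_erase hx)]
        rw [this]
        simp only [k', Function.update_self]
        ring
      have hk'2 : k' ∉ T := by
        intro h
        have := hmax k' h
        simp only [hk'1] at this
        omega
      have hk'3 : act (∏ i, P.fZ Z i ^ k' i) Φ = 0 := by
        by_contra hne
        apply hk'2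
        refine Finset.mem_filter.2 ⟨?_, hne⟩
        rw [Fintype.mem_piFinset]
        intro x
        rw [Finset.mem_range]
        by_cases hx : x = l
        · subst hx
          simp only [k', Function.update_self]
          exact hl
        · simp only [k', Function.update_of_ne hx]
          exact hk1 x
      have hk'4 : ∏ i, P.fZ Z i ^ k' i = P.fZ Z l * ∏ i, P.fZ Z i ^ k i := by
        rw [← Finset.mul_prod_erase _ _ (Finset.mem_univ l),
          ← Finset.mul_prod_erase _ (fun i => P.fZ Z i ^ k i) (Finset.mem_univ l)]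
        have : ∏ x ∈ Finset.univ.erase l, P.fZ Z x ^ k' x =
            ∏ x ∈ Finset.univ.erase l, P.fZ Z x ^ k x :=
          Finset.prod_congr rfl fun x hx => by
            simp only [k', Function.update_of_ne (Finset.ne_of_mem_erase hx)]
        rw [this]
        simp only [k', Function.update_self]
        rw [pow_succ]
        ring
      rw [hA, mem_Ann, ← act_mul, mul_comm, ← hk'4]
      exact hk'3
    · have hl' : k l = p - 1 := by
        have := hk1 l
        omega
      rw [hA, Ann_act, mem_col, ← Finset.mul_prod_erase _ _ (Finset.mem_univ l), hl',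
        mul_right_comm, pow_sub_one_mul hp.out.ne_zero]
      exact Ideal.mul_mem_right _ _ (P.fZ_pow_mem h0 h0' h1 h1' l)
  have hd := deriv_mem P hinj φ k i hi (hf i)
  have hb0 : P.b0Z Z i ∈ A := by
    have := hd 0
    rw [pderiv_ff_0, evZ, evA_rename] at this
    exact this
  have hf1 : P.f1Z Z i ∈ A := by
    have := hd 2
    rw [pderiv_ff_2] at this
    exact this
  have hb1 : P.b1Z Z i ∈ A := by
    have := hd 1
    rw [pderiv_ff_1, map_mul, evZ, evA_rename, evA_inr] at this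
    have hτ : algebraMap (Lam κ r) Z (X (i, 2)) ≠ 0 := by
      intro h
      have h2 := hinj (h.trans (map_zero _).symm)
      exact X_ne_zero _ h2
    have h3 := A.mul_mem_left (C (algebraMap (Lam κ r) Z (X (i, 2)))⁻¹) this
    rw [← mul_assoc, ← C_mul, inv_mul_cancel₀ hτ, C_1, one_mul] at h3
    exact h3
  have ha1 : map (algebraMap κ Z) (P.a1 i) ∈ A := by
    have h2 := P.f1Z_eq (Z := Z) i
    have h3 : map (algebraMap κ Z) (P.a1 i) = P.f1Z Z i -
        C (algebraMap (Lam κ r) Z (X (i, 1))) * P.b1Z Z i := by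
      rw [h2, Pen.b1Z]
      ring
    rw [h3]
    exact A.sub_mem hf1 (A.mul_mem_left _ hb1)
  have ha0 : map (algebraMap κ Z) (P.a0 i) ∈ A := by
    have h2 := P.fZ_eq (Z := Z) i
    rw [P.f0Z_eq] at h2
    have h3 : map (algebraMap κ Z) (P.a0 i) = P.fZ Z i -
        C (algebraMap (Lam κ r) Z (X (i, 2))) * P.f1Z Z i -
        C (algebraMap (Lam κ r) Z (X (i, 0))) * P.b0Z Z i := by
      rw [h2, Pen.b0Z]
      ring
    rw [h3]
    exact A.sub_mem (A.sub_mem (hf i) (A.mul_mem_left _ hf1)) (A.mul_mem_left _ hb0)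
  have hall := htop i A ha0 ha1 hb0 fun l _ => hf l
  -- degrees
  have hdeg : (∏ i, P.fZ Z i ^ k i).IsHomogeneous (∑ i, P.d i * k i) :=
    IsHomogeneous.prod _ _ _ fun i _ => (P.fZ_hom i).pow (k i)
  have hle : ∑ i, P.d i * k i ≤ P.bb * (p - 1) := by
    rw [Pen.bb, Finset.sum_mul]
    refine Finset.sum_le_sum fun l _ => Nat.mul_le_mul_left _ ?_
    have := hk1 l
    omega
  have h2 : ∑ i, (P.d i - 1) + r = P.bb := by
    rw [Pen.bb]
    have : ∑ i : Fin r, (P.d i - 1) + ∑ i : Fin r, 1 = ∑ i, P.d i := by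
      rw [← Finset.sum_add_distrib]
      refine Finset.sum_congr rfl fun i _ => ?_
      have := P.hd i
      omega
    rw [← this]
    simp
  have h3 : t * p + n * (p - 1) = (e + 2) * p + P.bb * p - n := by
    obtain ⟨q, rfl⟩ : ∃ q, p = q + 1 := ⟨p - 1, by omega⟩
    rw [Nat.add_sub_cancel]
    have h5 : n ≤ (e + 2) * (q + 1) + P.bb * (q + 1) := by
      have h6 : 2 ≤ (e + 2) * (q + 1) := by nlinarith
      have h7 : P.bb ≤ P.bb * (q + 1) := by nlinarith
      omega
    zify [h5]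
    have h6 : (t : ℤ) = e + P.bb - r := by
      have : t + r = e + P.bb := by omega
      have : (t : ℤ) + r = e + P.bb := by exact_mod_cast this
      linarith
    have h7 : (n : ℤ) = r + 2 := by exact_mod_cast hn
    rw [h6, h7]
    ring
  have h4 : P.bb * (p - 1) + P.bb = P.bb * p := by
    obtain ⟨q, rfl⟩ : ∃ q, p = q + 1 := ⟨p - 1, by omega⟩
    rw [Nat.add_sub_cancel]
    ring
  have hDD := frob_mem_DD (L := Z) p hp0 hφ
  have h5 : (t * p + n * (p - 1) - ∑ i, P.d i * k i) + ∑ i, P.d i * k i =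
      t * p + n * (p - 1) := Nat.sub_add_cancel (by omega)
  have h6 := act_mem_DD (i := t * p + n * (p - 1) - ∑ i, P.d i * k i) hdeg
    (by rw [h5]; exact hDD)
  apply hk2
  refine eq_zero_of_DD h6 fun f hf => ?_
  have h7 := hall _ f (by omega) hf
  have h8 := mem_Ann'.1 h7 1
  rwa [mul_one] at h8

end Pool.Agent.CB27
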