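import Mathlib
import Pool.Agent.CB27.Final
import Pool.Agent.CB27.NeZero
import Pool.Agent.K1Z.RegZ
import Pool.Agent.K1Z.Choice
import Pool.Agent.K1Z.Dom

/-!
# Proof of the core statement from the structure theorem
-/

set_option autoImplicit false
set_option linter.all false

noncomputable section

namespace Pool.Agent.CB27

open Module MvPolynomial Pool.Agent.CB Pool.Agent.K1Z

/-- the structure theorem (output of M5 and M6) -/
def StructP : Prop :=
  ∀ (p : ℕ) (κ : Type) [Field κ] [IsAlgClosed κ] [CharP κ p] [Fact p.Prime] (n r t e : ℕ)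
    (P : Pen κ n r) (φ : MvPolynomial (Fin n) κ →ₗ[κ] κ), n = r + 2 →
    P.Reg (FractionRing (Lam κ r)) → φ ∈ DD κ n t → t = e + ∑ i, (P.d i - 1) →
    (∀ i, P.a0 i ∈ Ann φ) → (∀ i, P.b0 i ∈ Ann φ) → (∀ i, P.a1 i ∈ Ann φ) →
    (∀ i, P.b1 i ∈ Ann φ) → P.GG (FractionRing (Lam κ r)) p φ ≠ 0 →
    ∃ (j0 : ℕ) (g : MvPolynomial (Fin n) (FractionRing (Lam κ r))), 1 ≤ j0 ∧ g.IsHomogeneous j0 ∧
      g ∈ Ann (P.GG (FractionRing (Lam κ r)) p φ) ∧ g ∉ P.IZ (FractionRing (Lam κ r)) ∧
      (∀ j < j0, ∀ g', g'.IsHomogeneous j → g' ∈ Ann (P.GG (FractionRing (Lam κ r)) p φ) →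
        g' ∈ P.IZ (FractionRing (Lam κ r))) ∧
      (∀ j g', j + j0 < (e + 2) * p → g'.IsHomogeneous j →
        g' ∈ Ann (P.GG (FractionRing (Lam κ r)) p φ) →
        ∃ w, g' - g * w ∈ P.IZ (FractionRing (Lam κ r))) ∧
      (p ≤ j0 ∨ (e + 2) * p ≤ 2 * j0 + P.bb)

theorem coreP (hS : StructP) : CoreP := by
  intro p hp κ _ _ _ r e t d F φ hd1 hmono hF hφ ht hφ0 hFφ hnz hC
  haveI : Fact p.Prime := ⟨hp⟩
  obtain ⟨P, hPd, ha0, hb0, ha1, hb, h1, h3, u, v, hu, hv, h0⟩ :=
    exists_pen (κ := κ) (n := r + 2) (r := r) rfl hd1 hmono hF hnz (J := Ann φ) hFφ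
  have hb1 : ∀ i, P.b1 i ∈ Ann φ := fun i => by rw [hb i]; exact hb0 i
  set Z := FractionRing (Lam κ r) with hZ
  have hinj : Function.Injective (algebraMap (Lam κ r) Z) := IsFractionRing.injective _ _
  have hreg : P.Reg Z := P.reg hinj rfl hu hv h0 h1 h3 hb
  have hpd : ∏ i : Fin r, d (i + 3) = ∏ i, P.d i := Finset.prod_congr rfl fun i _ => (hPd i).symm
  have hsd : ∑ i : Fin r, (d (i + 3) - 1) = ∑ i, (P.d i - 1) :=
    Finset.sum_congr rfl fun i _ => by rw [hPd i]
  have hbd : ∑ i : Fin r, d (i + 3) = P.bb := Finset.sum_congr rfl fun i _ => (hPd i).symm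
  rw [hpd, hsd, hbd] at hC
  rw [hsd] at ht
  rw [hpd]
  have hN : 0 < ∏ i, P.d i := Finset.prod_pos fun i _ => P.hd i
  have hC' : 2 * (∑ i, (P.d i - 1)) + 2 * P.bb < p := by
    refine lt_of_le_of_lt ?_ hC
    unfold Cst
    have h5 : (∑ i, (P.d i - 1)) + P.bb ≤
        (∏ i, P.d i) * (∑ i, (P.d i - 1)) + (∏ i, P.d i) * P.bb :=
      Nat.add_le_add (Nat.le_mul_of_pos_left _ hN) (Nat.le_mul_of_pos_left _ hN)
    have h6 : 2 * ((∏ i, P.d i) * (∑ i, (P.d i - 1)) + (∏ i, P.d i) * P.bb) ≤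
        ((∏ i, P.d i) * (∑ i, (P.d i - 1)) + (∏ i, P.d i) * P.bb) * (e + 2) := by
      rw [mul_comm 2]
      exact Nat.mul_le_mul_left _ (by omega)
    omega
  -- `G ≠ 0`
  have hG0 : P.GG Z p φ ≠ 0 := by
    refine GG_ne_zero P hinj (s0 := (∑ i, (P.d i - 1)) + 2 * P.bb) (e := e) rfl hφ hφ0 ht ha0 hb0
      ha1 hb1 ?_ ?_
    · intro i A hA1 hA2 hA3 hA4 s w hs hw
      have hCI := (P.CI_m4 (Z := Z) hinj rfl i (h1 i)).wr
      set l : List (ℕ × MvPolynomial (Fin (r + 2)) Z) := (P.d i, P.b0Z Z i) ::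
        (P.d i, map (algebraMap κ Z) (P.a1 i)) ::
        (List.finRange r).map fun l => (P.d l, if l = i then map (algebraMap κ Z) (P.a0 l)
        else P.fZ Z l) with hl
      have hok : ∀ a ∈ l, okf a := by
        intro a ha
        rcases List.mem_cons.1 ha with rfl | ha
        · exact ⟨P.hd i, P.b0Z_hom i⟩
        · rcases List.mem_cons.1 ha with rfl | ha
          · exact ⟨P.hd i, Pen.hom_map (P.ha1 i)⟩
          · obtain ⟨j, -, rfl⟩ := List.mem_map.1 ha
            refine ⟨P.hd j, ?_⟩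
            simp only
            split_ifs
            · exact Pen.hom_map (P.ha0 j)
            · exact P.fZ_hom j
      have hlen : l.length = r + 2 := by
        rw [hl, List.length_cons, List.length_cons, List.length_map, List.length_finRange]
      have hsdl : sd l ≤ (∑ i, (P.d i - 1)) + 2 * P.bb := by
        have h5 : sd l = (P.d i - 1) + ((P.d i - 1) + ∑ i, (P.d i - 1)) := by
          rw [hl, sd, List.map_cons, List.map_cons, List.map_map, List.sum_cons, List.sum_cons,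
            ← List.ofFn_eq_map, List.sum_ofFn]
          rfl
        have h6 : P.d i ≤ P.bb := Finset.single_le_sum (f := P.d) (fun _ _ => Nat.zero_le _)
          (Finset.mem_univ i)
        omega
      have h4 := hd_eq_zero_iff.1 (WR_zero hlen hok hCI (lt_of_le_of_lt hsdl hs)) w hw
      refine (IL_le (I := A) ?_) h4
      intro a ha
      rcases List.mem_cons.1 ha with rfl | ha
      · exact hA3
      · rcases List.mem_cons.1 ha with rfl | ha
        · exact hA2
        · obtain ⟨j, -, rfl⟩ := List.mem_map.1 ha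
          simp only
          split_ifs with hj
          · rw [hj]; exact hA1
          · exact hA4 j hj
    · have h5 : ∑ i, (P.d i - 1) + r = P.bb := by
        rw [Pen.bb]
        have : ∑ i : Fin r, (P.d i - 1) + ∑ i : Fin r, 1 = ∑ i, P.d i := by
          rw [← Finset.sum_add_distrib]
          refine Finset.sum_congr rfl fun i _ => ?_
          have := P.hd i
          omega
        rw [← this]
        simp
      have h6 : 2 * p ≤ (e + 2) * p := Nat.mul_le_mul_right _ (by omega)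
      have h7 : 2 ≤ p := hp.two_le
      omega
  refine core_of_struct P (p := p) rfl hφ ht hreg.r0 (P.IZ_isPrime hreg) ha0 hb0 ha1 hb1
    (hS p κ (r + 2) r t e P φ rfl hreg hφ ht ha0 hb0 ha1 hb1 hG0) hC

end Pool.Agent.CB27
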